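import Mathlib

/-!
Clique partition polynomials of finite graphs.
`P H S` is the sum of `X ^ (|S| - number of parts)` over all partitions of `S` into cliques
of `H`.
-/

namespace H5CP

open Finset Polynomial

variable {V : Type*} [DecidableEq V]

open Classical in
/-- the cliques of `H` inside `S` which contain `v` -/
noncomputable def cl (H : SimpleGraph V) (v : V) (S : Finset V) : Finset (Finset V) :=
  S.powerset.filter (fun C => v ∈ C ∧ H.IsClique (C : Set V))

theorem mem_cl {H : SimpleGraph V} {v : V} {S C : Finset V} :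
    C ∈ cl H v S ↔ C ⊆ S ∧ v ∈ C ∧ H.IsClique (C : Set V) := by
  classical
  simp only [cl, mem_filter, mem_powerset]

theorem card_sdiff_lt {S C : Finset V} {v : V} (hC : C ⊆ S) (hv : v ∈ C) :
    (S \ C).card < S.card := by
  apply card_lt_card
  rw [ssubset_iff_of_subset sdiff_subset]
  exact ⟨v, hC hv, by simp [hv]⟩

/-- the clique partition polynomial -/
noncomputable def P (H : SimpleGraph V) (S : Finset V) : ℕ[X] :=
  if h : S.Nonempty then
    ∑ C ∈ (cl H h.choose S).attach, X ^ (C.1.card - 1) * P H (S \ C.1)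
  else 1
termination_by S.card
decreasing_by
  have := mem_cl.1 C.2
  exact card_sdiff_lt this.1 this.2.1

@[simp] theorem P_empty (H : SimpleGraph V) : P H ∅ = 1 := by
  rw [P]
  simp

theorem P_choose (H : SimpleGraph V) {S : Finset V} (h : S.Nonempty) :
    P H S = ∑ C ∈ cl H h.choose S, X ^ (C.card - 1) * P H (S \ C) := by
  rw [P, dif_pos h]
  rw [sum_attach (cl H h.choose S) (fun C => X ^ (C.card - 1) * P H (S \ C))]

/-- expansion at an arbitrary vertex -/
theorem P_expand (H : SimpleGraph V) : ∀ (n : ℕ) (S : Finset V), S.card = n → ∀ v ∈ S,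
    P H S = ∑ C ∈ cl H v S, X ^ (C.card - 1) * P H (S \ C) := by
  intro n
  induction n using Nat.strong_induction_on with
  | _ n ih =>
    intro S hS v hv
    have hne : S.Nonempty := ⟨v, hv⟩
    obtain ⟨m, hm⟩ : ∃ m, m = hne.choose := ⟨_, rfl⟩
    have hmS : m ∈ S := by rw [hm]; exact hne.choose_spec
    have h1 : P H S = ∑ C ∈ cl H m S, X ^ (C.card - 1) * P H (S \ C) := by
      rw [hm]; exact P_choose H hne
    by_cases hvm : v = m
    · rw [hvm]; exact h1
    · rw [h1]
      -- split both sums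
      rw [← sum_filter_add_sum_filter_not (cl H m S) (fun C => v ∈ C),
        ← sum_filter_add_sum_filter_not (cl H v S) (fun C => m ∈ C)]
      congr 1
      · apply sum_congr _ (fun _ _ => rfl)
        ext C
        rw [mem_filter, mem_filter, mem_cl, mem_cl]
        tauto
      · have e1 : ∀ C ∈ (cl H m S).filter (fun C => ¬ v ∈ C),
            X ^ (C.card - 1) * P H (S \ C) =
            ∑ D ∈ cl H v (S \ C), X ^ (C.card - 1) * (X ^ (D.card - 1) * P H ((S \ C) \ D)) := by
          intro C hC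
          rw [mem_filter, mem_cl] at hC
          obtain ⟨⟨hC1, hC2, hC3⟩, hC4⟩ := hC
          rw [← mul_sum, ← ih (S \ C).card (by rw [← hS]; exact card_sdiff_lt hC1 hC2) (S \ C) rfl v
            (mem_sdiff.2 ⟨hv, hC4⟩)]
        have e2 : ∀ D ∈ (cl H v S).filter (fun C => ¬ m ∈ C),
            X ^ (D.card - 1) * P H (S \ D) =
            ∑ C ∈ cl H m (S \ D), X ^ (D.card - 1) * (X ^ (C.card - 1) * P H ((S \ D) \ C)) := by
          intro C hC
          rw [mem_filter, mem_cl] at hC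
          obtain ⟨⟨hC1, hC2, hC3⟩, hC4⟩ := hC
          rw [← mul_sum, ← ih (S \ C).card (by rw [← hS]; exact card_sdiff_lt hC1 hC2) (S \ C) rfl m
            (mem_sdiff.2 ⟨hmS, hC4⟩)]
        rw [sum_congr rfl e1, sum_congr rfl e2]
        have e3 : ∀ (C D : Finset V),
            (C ∈ (cl H m S).filter (fun C => ¬ v ∈ C) ∧ D ∈ cl H v (S \ C)) ↔
            (C ∈ cl H m (S \ D) ∧ D ∈ (cl H v S).filter (fun C => ¬ m ∈ C)) := by
          intro C D
          simp only [mem_filter, mem_cl]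
          constructor
          · rintro ⟨⟨⟨h1, h2, h3⟩, h4⟩, h5, h6, h7⟩
            refine ⟨⟨fun x hx => mem_sdiff.2 ⟨h1 hx, fun hxD => ?_⟩, h2, h3⟩,
              ⟨fun x hx => (mem_sdiff.1 (h5 hx)).1, h6, h7⟩, fun hmD => ?_⟩
            · exact (mem_sdiff.1 (h5 hxD)).2 hx
            · exact (mem_sdiff.1 (h5 hmD)).2 h2
          · rintro ⟨⟨h1, h2, h3⟩, ⟨h5, h6, h7⟩, h8⟩
            refine ⟨⟨⟨fun x hx => (mem_sdiff.1 (h1 hx)).1, h2, h3⟩, fun hvC => ?_⟩,
              fun x hx => mem_sdiff.2 ⟨h5 hx, fun hxC => ?_⟩, h6, h7⟩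
            · exact (mem_sdiff.1 (h1 hvC)).2 h6
            · exact (mem_sdiff.1 (h1 hxC)).2 hx
        rw [sum_comm' e3]
        refine sum_congr rfl (fun D _ => sum_congr rfl (fun C _ => ?_))
        rw [sdiff_right_comm]
        ring

theorem P_exp (H : SimpleGraph V) {S : Finset V} {v : V} (hv : v ∈ S) :
    P H S = ∑ C ∈ cl H v S, X ^ (C.card - 1) * P H (S \ C) :=
  P_expand H _ S rfl v hv

/-- `P H S` depends only on the adjacencies inside `S` -/
theorem P_congr {H H' : SimpleGraph V} : ∀ (n : ℕ) (S : Finset V), S.card = n →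
    (∀ u ∈ S, ∀ w ∈ S, (H.Adj u w ↔ H'.Adj u w)) → P H S = P H' S := by
  intro n
  induction n using Nat.strong_induction_on with
  | _ n ih =>
    intro S hS hadj
    rcases S.eq_empty_or_nonempty with rfl | ⟨v, hv⟩
    · simp
    · rw [P_exp H hv, P_exp H' hv]
      have h1 : cl H v S = cl H' v S := by
        ext C
        rw [mem_cl, mem_cl]
        constructor
        · rintro ⟨h1, h2, h3⟩
          refine ⟨h1, h2, fun x hx y hy hxy => ?_⟩
          exact (hadj x (h1 hx) y (h1 hy)).1 (h3 hx hy hxy)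
        · rintro ⟨h1, h2, h3⟩
          refine ⟨h1, h2, fun x hx y hy hxy => ?_⟩
          exact (hadj x (h1 hx) y (h1 hy)).2 (h3 hx hy hxy)
      rw [h1]
      refine sum_congr rfl (fun C hC => ?_)
      rw [mem_cl] at hC
      rw [ih (S \ C).card (by rw [← hS]; exact card_sdiff_lt hC.1 hC.2.1) (S \ C) rfl
        (fun u hu w hw => hadj u (mem_sdiff.1 hu).1 w (mem_sdiff.1 hw).1)]

theorem P_congr' {H H' : SimpleGraph V} {S : Finset V}
    (h : ∀ u ∈ S, ∀ w ∈ S, (H.Adj u w ↔ H'.Adj u w)) : P H S = P H' S :=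
  P_congr _ S rfl h

/-! ### Coefficientwise order -/

/-- coefficientwise order on `ℕ[X]` -/
def Le (p q : ℕ[X]) : Prop := ∃ r, q = p + r

theorem Le.refl (p : ℕ[X]) : Le p p := ⟨0, by simp⟩

theorem Le.of_eq {p q : ℕ[X]} (h : p = q) : Le p q := h ▸ Le.refl p

theorem Le.trans {p q r : ℕ[X]} (h : Le p q) (h' : Le q r) : Le p r := by
  obtain ⟨a, rfl⟩ := h
  obtain ⟨b, rfl⟩ := h'
  exact ⟨a + b, by ring⟩

theorem Le.add {p q p' q' : ℕ[X]} (h : Le p q) (h' : Le p' q') : Le (p + p') (q + q') := by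
  obtain ⟨a, rfl⟩ := h
  obtain ⟨b, rfl⟩ := h'
  exact ⟨a + b, by ring⟩

theorem Le.mul {p q p' q' : ℕ[X]} (h : Le p q) (h' : Le p' q') : Le (p * p') (q * q') := by
  obtain ⟨a, rfl⟩ := h
  obtain ⟨b, rfl⟩ := h'
  exact ⟨p * b + a * p' + a * b, by ring⟩

theorem Le.mul_left {p q : ℕ[X]} (r : ℕ[X]) (h : Le p q) : Le (r * p) (r * q) :=
  (Le.refl r).mul h

theorem Le.sum {ι : Type*} (s : Finset ι) {f g : ι → ℕ[X]} (h : ∀ i ∈ s, Le (f i) (g i)) :
    Le (∑ i ∈ s, f i) (∑ i ∈ s, g i) := by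
  classical
  induction s using Finset.induction_on with
  | empty => simpa using Le.refl 0
  | insert a s ha ih =>
    rw [sum_insert ha, sum_insert ha]
    exact (h a (mem_insert_self _ _)).add (ih (fun i hi => h i (mem_insert_of_mem hi)))

theorem Le.sum_subset {ι : Type*} [DecidableEq ι] {s t : Finset ι} (h : s ⊆ t) (f : ι → ℕ[X]) :
    Le (∑ i ∈ s, f i) (∑ i ∈ t, f i) :=
  ⟨∑ i ∈ t \ s, f i, by rw [add_comm, sum_sdiff h]⟩

/-- more edges, larger polynomial -/
theorem P_mono {H H' : SimpleGraph V} : ∀ (n : ℕ) (S : Finset V), S.card = n →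
    (∀ u ∈ S, ∀ w ∈ S, H.Adj u w → H'.Adj u w) → Le (P H S) (P H' S) := by
  intro n
  induction n using Nat.strong_induction_on with
  | _ n ih =>
    intro S hS hadj
    rcases S.eq_empty_or_nonempty with rfl | ⟨v, hv⟩
    · simpa using Le.refl 1
    · rw [P_exp H hv, P_exp H' hv]
      have h1 : cl H v S ⊆ cl H' v S := by
        intro C
        rw [mem_cl, mem_cl]
        rintro ⟨h1, h2, h3⟩
        refine ⟨h1, h2, fun x hx y hy hxy => ?_⟩
        exact hadj x (h1 hx) y (h1 hy) (h3 hx hy hxy)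
      refine Le.trans ?_ (Le.sum_subset h1 _)
      refine Le.sum _ (fun C hC => ?_)
      rw [mem_cl] at hC
      exact Le.mul_left _ (ih (S \ C).card (by rw [← hS]; exact card_sdiff_lt hC.1 hC.2.1) (S \ C) rfl
        (fun u hu w hw => hadj u (mem_sdiff.1 hu).1 w (mem_sdiff.1 hw).1))

/-- disjoint unions -/
theorem P_union {H : SimpleGraph V} : ∀ (n : ℕ) (T S : Finset V), T.card = n → T ⊆ S →
    (∀ u ∈ T, ∀ w ∈ S, w ∉ T → ¬ H.Adj u w) → P H S = P H T * P H (S \ T) := by
  intro n
  induction n using Nat.strong_induction_on with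
  | _ n ih =>
    intro T S hT hTS hadj
    rcases T.eq_empty_or_nonempty with rfl | ⟨v, hv⟩
    · simp
    · have h1 : cl H v S = cl H v T := by
        ext C
        rw [mem_cl, mem_cl]
        constructor
        · rintro ⟨h1, h2, h3⟩
          refine ⟨fun x hx => ?_, h2, h3⟩
          by_contra hxT
          have hvx : v ≠ x := by rintro rfl; exact hxT hv
          exact hadj v hv x (h1 hx) hxT (h3 h2 hx hvx)
        · rintro ⟨h1, h2, h3⟩
          exact ⟨h1.trans hTS, h2, h3⟩
      rw [P_exp H (hTS hv), P_exp H hv, h1, sum_mul]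
      refine sum_congr rfl (fun C hC => ?_)
      rw [mem_cl] at hC
      have h2 := ih (T \ C).card (by rw [← hT]; exact card_sdiff_lt hC.1 hC.2.1) (T \ C) (S \ C) rfl
        (sdiff_subset_sdiff hTS le_rfl) (by
          intro u hu w hw hwT
          rw [mem_sdiff] at hu hw
          apply hadj u hu.1 w hw.1
          intro hwT'
          exact hwT (mem_sdiff.2 ⟨hwT', hw.2⟩))
      have h3 : (S \ C) \ (T \ C) = S \ T := by
        ext x
        simp only [mem_sdiff]
        constructor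
        · rintro ⟨⟨h1, h2⟩, h3⟩
          exact ⟨h1, fun h4 => h3 ⟨h4, h2⟩⟩
        · rintro ⟨h1, h2⟩
          exact ⟨⟨h1, fun h3 => h2 (hC.1 h3)⟩, fun h3 => h2 h3.1⟩
      rw [h2, h3]
      ring

theorem P_union' {H : SimpleGraph V} {T S : Finset V} (hTS : T ⊆ S)
    (h : ∀ u ∈ T, ∀ w ∈ S, w ∉ T → ¬ H.Adj u w) : P H S = P H T * P H (S \ T) :=
  P_union _ T S rfl hTS h

end H5CP
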