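import Pool.Agent.Lib.H5.CP.Basic

/-!
The bounding polynomials and the inequalities between them.
-/

namespace H5CP

open Finset Polynomial

/-- the polynomial of an edge -/
noncomputable def PM : ℕ[X] := 1 + X

/-- the polynomial of a path with two edges -/
noncomputable def PL : ℕ[X] := 1 + 2 * X

/-- the polynomial of a triangle -/
noncomputable def PQ : ℕ[X] := 1 + 3 * X + X ^ 2

/-- the polynomial of the complete graph with four vertices -/
noncomputable def PK : ℕ[X] := 1 + 6 * X + 7 * X ^ 2 + X ^ 3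

/-- auxiliary sequence -/
noncomputable def W : ℕ → ℕ[X]
  | 0 => 1
  | 1 => PM
  | 2 => PL
  | 3 => PQ
  | 4 => PL ^ 2
  | (n + 5) => PQ * W (n + 2)

theorem W_rec (n : ℕ) : W (n + 5) = PQ * W (n + 2) := by rw [W]

/-- the bound for graphs with `k` edges and `k + a` vertices -/
noncomputable def B (a k : ℕ) : ℕ[X] := if k ≤ a then PM ^ k else PM ^ a * W (k - a)

theorem B_le {a k : ℕ} (h : k ≤ a) : B a k = PM ^ k := by rw [B, if_pos h]

theorem B_add (a s : ℕ) : B a (a + s) = PM ^ a * W s := by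
  rcases Nat.eq_zero_or_pos s with rfl | hs
  · rw [B, if_pos (by omega)]; simp [W]
  · rw [B, if_neg (by omega), Nat.add_sub_cancel_left]

theorem W_I : ∀ s, Le (W (s + 2)) (PM * W (s + 1)) := by
  intro s
  induction s using Nat.strong_induction_on with
  | _ s ih =>
    match s, ih with
    | 0, _ => exact ⟨X ^ 2, by simp only [W, PM, PL]; ring⟩
    | 1, _ => exact ⟨X ^ 2, by simp only [W, PM, PL, PQ]; ring⟩
    | 2, _ => exact ⟨X ^ 3, by simp only [W, PM, PL, PQ]; ring⟩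
    | 3, _ => exact ⟨PL * X ^ 2, by simp only [W, PM, PL, PQ]; ring⟩
    | n + 4, ih =>
      have h := Le.mul_left PQ (ih (n + 1) (by omega))
      rw [show n + 4 + 2 = (n + 1) + 5 by ring, show n + 4 + 1 = n + 5 by ring, W_rec, W_rec]
      rw [show PM * (PQ * W (n + 2)) = PQ * (PM * W (n + 1 + 1)) by ring_nf]
      exact h

theorem W_III : ∀ s, Le (PM * W s) (W (s + 2)) := by
  intro s
  induction s using Nat.strong_induction_on with
  | _ s ih =>
    match s, ih with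
    | 0, _ => exact ⟨X, by simp only [W, PM, PL]; ring⟩
    | 1, _ => exact ⟨X, by simp only [W, PM, PQ]; ring⟩
    | 2, _ => exact ⟨X + 2 * X ^ 2, by simp only [W, PM, PL]; ring⟩
    | 3, _ => exact ⟨PQ * X, by simp only [W, PM, PL, PQ]; ring⟩
    | 4, _ => exact ⟨X + 3 * X ^ 2 + 2 * X ^ 3 + X ^ 4, by simp only [W, PM, PL, PQ]; ring⟩
    | n + 5, ih =>
      have h := Le.mul_left PQ (ih (n + 2) (by omega))
      rw [show n + 5 + 2 = (n + 2) + 5 by ring, W_rec, W_rec]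
      rw [show PM * (PQ * W (n + 2)) = PQ * (PM * W (n + 2)) by ring]
      exact h

theorem W_II : ∀ s, Le (W (s + 2) + X * W (s + 1)) (W (s + 3)) := by
  intro s
  induction s using Nat.strong_induction_on with
  | _ s ih =>
    match s, ih with
    | 0, _ => exact ⟨0, by simp only [W, PM, PL, PQ]; ring⟩
    | 1, _ => exact ⟨X ^ 2, by simp only [W, PL, PQ]; ring⟩
    | 2, _ => exact ⟨X ^ 3, by simp only [W, PL, PQ]; ring⟩
    | 3, _ => exact ⟨X ^ 4, by simp only [W, PL, PQ]; ring⟩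
    | n + 4, ih =>
      have h := Le.mul_left PQ (ih (n + 1) (by omega))
      rw [show n + 4 + 2 = (n + 1) + 5 by ring, show n + 4 + 1 = n + 5 by ring,
        show n + 4 + 3 = (n + 2) + 5 by ring, W_rec, W_rec, W_rec]
      rw [show PQ * W (n + 1 + 2) + X * (PQ * W (n + 2)) =
        PQ * (W (n + 1 + 2) + X * W (n + 1 + 1)) by ring_nf]
      exact h

theorem W_V : ∀ s, Le (PM * W (s + 6) + X * (PM ^ 3 * W (s + 1))) (W (s + 8)) := by
  intro s
  induction s using Nat.strong_induction_on with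
  | _ s ih =>
    match s, ih with
    | 0, _ => exact ⟨2 * X ^ 2 + 5 * X ^ 3 + 2 * X ^ 4, by simp only [W, PM, PL, PQ]; ring⟩
    | 1, _ => exact ⟨X ^ 2 + 3 * X ^ 3 + 3 * X ^ 4 + 3 * X ^ 5 + X ^ 6, by
        simp only [W, PM, PL, PQ]; ring⟩
    | 2, _ => exact ⟨PQ * (2 * X ^ 2 + 4 * X ^ 3 + X ^ 4), by simp only [W, PM, PL, PQ]; ring⟩
    | 3, _ => exact ⟨2 * X ^ 2 + 11 * X ^ 3 + 20 * X ^ 4 + 14 * X ^ 5 + 5 * X ^ 6 + X ^ 7, by
        simp only [W, PM, PL, PQ]; ring⟩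
    | n + 4, ih =>
      have h := Le.mul_left PQ (ih (n + 1) (by omega))
      rw [show n + 4 + 6 = (n + 5) + 5 by ring, show n + 4 + 1 = n + 5 by ring,
        show n + 4 + 8 = (n + 7) + 5 by ring, W_rec (n + 5), W_rec n, W_rec (n + 7)]
      rw [show PM * (PQ * W (n + 5 + 2)) + X * (PM ^ 3 * (PQ * W (n + 2))) =
        PQ * (PM * W (n + 1 + 6) + X * (PM ^ 3 * W (n + 1 + 1))) by ring_nf]
      exact h

theorem W_VII : ∀ s, Le (PM * W (s + 1) + 2 * X * (PM * W s)) (W (s + 4)) := by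
  intro s
  induction s using Nat.strong_induction_on with
  | _ s ih =>
    match s, ih with
    | 0, _ => exact ⟨X ^ 2, by simp only [W, PM, PL]; ring⟩
    | 1, _ => exact ⟨X ^ 2, by simp only [W, PM, PL, PQ]; ring⟩
    | 2, _ => exact ⟨X ^ 2 + X ^ 3 + X ^ 4, by simp only [W, PM, PL, PQ]; ring⟩
    | 3, _ => exact ⟨X ^ 2 + 4 * X ^ 3 + 2 * X ^ 4, by simp only [W, PM, PL, PQ]; ring⟩
    | 4, _ => exact ⟨X ^ 2 + 3 * X ^ 3 + 3 * X ^ 4 + 2 * X ^ 5, by
        simp only [W, PM, PL, PQ]; ring⟩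
    | n + 5, ih =>
      have h := Le.mul_left PQ (ih (n + 2) (by omega))
      rw [show n + 5 + 1 = (n + 1) + 5 by ring, show n + 5 + 4 = (n + 4) + 5 by ring,
        W_rec (n + 1), W_rec n, W_rec (n + 4)]
      rw [show PM * (PQ * W (n + 1 + 2)) + 2 * X * (PM * (PQ * W (n + 2))) =
        PQ * (PM * W (n + 2 + 1) + 2 * X * (PM * W (n + 2))) by ring_nf]
      exact h

theorem W_XI : ∀ s, Le (PM * W (s + 3) + X * (PM * W (s + 2)) + X * (PM ^ 2 * W s)
    + X ^ 2 * (PM * W (s + 1))) (W (s + 6)) := by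
  intro s
  induction s using Nat.strong_induction_on with
  | _ s ih =>
    match s, ih with
    | 0, _ => exact ⟨X ^ 2, by simp only [W, PM, PL, PQ]; ring⟩
    | 1, _ => exact ⟨X ^ 2 + 2 * X ^ 3, by simp only [W, PM, PL, PQ]; ring⟩
    | 2, _ => exact ⟨X ^ 2 + 2 * X ^ 3 + X ^ 4 + X ^ 5, by simp only [W, PM, PL, PQ]; ring⟩
    | 3, _ => exact ⟨X ^ 2 + 3 * X ^ 3 + X ^ 4 + X ^ 5 + X ^ 6, by
        simp only [W, PM, PL, PQ]; ring⟩
    | 4, _ => exact ⟨X ^ 2 + 5 * X ^ 3 + 8 * X ^ 4 + 4 * X ^ 5 + X ^ 6, by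
        simp only [W, PM, PL, PQ]; ring⟩
    | n + 5, ih =>
      have h := Le.mul_left PQ (ih (n + 2) (by omega))
      rw [show n + 5 + 3 = (n + 3) + 5 by ring, show n + 5 + 2 = (n + 2) + 5 by ring,
        show n + 5 + 1 = (n + 1) + 5 by ring, show n + 5 + 6 = (n + 6) + 5 by ring,
        W_rec n, W_rec (n + 3), W_rec (n + 2), W_rec (n + 1), W_rec (n + 6)]
      rw [show PM * (PQ * W (n + 3 + 2)) + X * (PM * (PQ * W (n + 2 + 2)))
        + X * (PM ^ 2 * (PQ * W (n + 2))) + X ^ 2 * (PM * (PQ * W (n + 1 + 2))) =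
        PQ * (PM * W (n + 2 + 3) + X * (PM * W (n + 2 + 2)) + X * (PM ^ 2 * W (n + 2))
        + X ^ 2 * (PM * W (n + 2 + 1))) by ring_nf]
      exact h

theorem W_X : ∀ s, Le (PK * (PM ^ 2 * W (s + 2))) (W (s + 10)) := by
  intro s
  induction s using Nat.strong_induction_on with
  | _ s ih =>
    match s, ih with
    | 0, _ => exact ⟨PL * (3 * X ^ 2 + 7 * X ^ 3 + 4 * X ^ 4 + X ^ 5), by
        simp only [W, PM, PL, PQ, PK]; ring⟩
    | 1, _ => exact ⟨PQ * (3 * X ^ 2 + 7 * X ^ 3 + 4 * X ^ 4 + X ^ 5), by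
        simp only [W, PM, PL, PQ, PK]; ring⟩
    | 2, _ => exact ⟨2 * X ^ 2 + 11 * X ^ 3 + 22 * X ^ 4 + 23 * X ^ 5 + 18 * X ^ 6 + 8 * X ^ 7
        + X ^ 8, by simp only [W, PM, PL, PQ, PK]; ring⟩
    | n + 3, ih =>
      have h := Le.mul_left PQ (ih n (by omega))
      rw [show n + 3 + 2 = n + 5 by ring, show n + 3 + 10 = (n + 8) + 5 by ring,
        W_rec n, W_rec (n + 8)]
      rw [show PK * (PM ^ 2 * (PQ * W (n + 2))) = PQ * (PK * (PM ^ 2 * W (n + 2))) by ring]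
      exact h

/-! ### The same for `B` -/

theorem B_mono (a k : ℕ) : Le (B a k) (B (a + 1) k) := by
  rcases le_or_gt k a with h | h
  · rw [B_le h, B_le (by omega : k ≤ a + 1)]
    exact Le.refl _
  · obtain ⟨s, rfl⟩ : ∃ s, k = a + (s + 1) := ⟨k - a - 1, by omega⟩
    rw [B_add, show a + (s + 1) = (a + 1) + s by ring, B_add]
    rcases s with _ | s
    · exact Le.of_eq (by simp only [W]; ring)
    · rw [pow_succ, mul_assoc]
      exact Le.mul_left _ (W_I s)

theorem B_III (a k : ℕ) : Le (B (a + 1) k) (B a (k + 1)) := by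
  rcases lt_trichotomy k a with h | h | h
  · rw [B_le (by omega : k ≤ a + 1), B_le (by omega : k + 1 ≤ a)]
    exact ⟨PM ^ k * X, by rw [pow_succ]; simp only [PM]; ring⟩
  · subst h
    rw [B_le (by omega : k ≤ k + 1), B_add]
    exact ⟨PM ^ k * X, by simp only [W, PM]; ring⟩
  · obtain ⟨s, rfl⟩ : ∃ s, k = (a + 1) + s := ⟨k - a - 1, by omega⟩
    rw [B_add, show a + 1 + s + 1 = a + (s + 2) by ring, B_add, pow_succ, mul_assoc]
    exact Le.mul_left _ (W_III s)

theorem B_III' (a k j : ℕ) : Le (B (a + j) k) (B a (k + j)) := by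
  induction j with
  | zero => exact Le.refl _
  | succ j ih =>
    have h := B_III (a + j) k
    rw [show a + (j + 1) = a + j + 1 by ring]
    refine Le.trans h ?_
    clear h ih
    induction j generalizing k with
    | zero => exact Le.refl _
    | succ j ih =>
      have h := B_III (a + j) (k + 1)
      rw [show a + (j + 1) = a + j + 1 by ring]
      refine Le.trans h ?_
      have h2 := ih (k + 1)
      rw [show k + 1 + (j + 1) = k + (j + 1 + 1) by ring] at h2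
      exact h2

theorem B_II (a k : ℕ) : Le (B a (k + 1) + X * B a k) (B a (k + 2)) := by
  rcases lt_or_ge (k + 1) a with h | h
  · rw [B_le (by omega : k + 1 ≤ a), B_le (by omega : k ≤ a), B_le (by omega : k + 2 ≤ a)]
    exact ⟨PM ^ k * X ^ 2, by rw [pow_succ, pow_add]; simp only [PM]; ring⟩
  · rcases Nat.eq_or_lt_of_le h with h1 | h1
    · rw [B_le (by omega : k + 1 ≤ a), B_le (by omega : k ≤ a),
        show k + 2 = a + 1 by omega, B_add, h1]
      exact ⟨PM ^ k * X ^ 2, by rw [pow_succ]; simp only [W, PM]; ring⟩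
    · rcases Nat.eq_or_lt_of_le (by omega : a ≤ k) with h2 | h2
      · subst h2
        rw [B_add, B_add, B_le le_rfl]
        exact Le.of_eq (by simp only [W, PM, PL]; ring)
      · obtain ⟨s, rfl⟩ : ∃ s, k = a + (s + 1) := ⟨k - a - 1, by omega⟩
        rw [B_add, show a + (s + 1) + 1 = a + (s + 2) by ring,
          show a + (s + 1) + 2 = a + (s + 3) by ring, B_add, B_add]
        rw [show PM ^ a * W (s + 2) + X * (PM ^ a * W (s + 1)) =
          PM ^ a * (W (s + 2) + X * W (s + 1)) by ring]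
        exact Le.mul_left _ (W_II s)

theorem B_IV (a k : ℕ) : PM * B a k = B (a + 1) (k + 1) := by
  rcases le_or_gt k a with h | h
  · rw [B_le h, B_le (by omega : k + 1 ≤ a + 1), pow_succ]; ring
  · obtain ⟨s, rfl⟩ : ∃ s, k = a + s := ⟨k - a, by omega⟩
    rw [B_add, show a + s + 1 = (a + 1) + s by ring, B_add, pow_succ]; ring

theorem B_zero (k : ℕ) : B 0 k = W k := by
  have := B_add 0 k
  simpa using this

theorem B_one (k : ℕ) : B 1 (k + 1) = PM * W k := by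
  have := B_add 1 k
  rw [add_comm 1 k] at this
  simpa using this

theorem B_V (k : ℕ) : Le (B 1 (k + 4) + X * B 3 (k + 1)) (B 0 (k + 5)) := by
  rw [B_one (k + 3), B_zero]
  match k with
  | 0 =>
    rw [B_le (by omega : 0 + 1 ≤ 3)]
    exact ⟨2 * X ^ 2 + X ^ 3, by simp only [W, PM, PL, PQ]; ring⟩
  | 1 =>
    rw [B_le (by omega : 1 + 1 ≤ 3)]
    exact ⟨X ^ 2 + X ^ 3 + X ^ 4, by simp only [W, PM, PL, PQ]; ring⟩
  | 2 =>
    rw [B_le (by omega : 2 + 1 ≤ 3)]
    exact ⟨2 * X ^ 2 + 4 * X ^ 3 + X ^ 4, by simp only [W, PM, PL, PQ]; ring⟩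
  | k + 3 =>
    rw [show k + 3 + 1 = 3 + (k + 1) by ring, B_add]
    exact W_V k

theorem B_VII (k : ℕ) : Le (B 1 (k + 2) + 2 * X * B 1 (k + 1)) (B 0 (k + 4)) := by
  rw [B_one (k + 1), B_one k, B_zero]
  exact W_VII k

theorem B_XI (k : ℕ) : Le (B 1 (k + 3) + X * B 1 (k + 2) + X * B 2 (k + 1) + X ^ 2 * B 1 (k + 1))
    (B 0 (k + 5)) := by
  rw [B_one (k + 2), B_one (k + 1), B_one k, B_zero]
  match k with
  | 0 =>
    rw [B_le (by omega : 0 + 1 ≤ 2)]
    exact ⟨X ^ 2, by simp only [W, PM, PL, PQ]; ring⟩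
  | k + 1 =>
    rw [show k + 1 + 1 = 2 + k by ring, B_add]
    rw [show 2 + k = k + 2 by ring]
    exact W_XI k

theorem B_VIII {k : ℕ} (hk : k ≠ 1) : Le (PQ * B 0 k) (B 0 (k + 3)) := by
  rw [B_zero, B_zero]
  match k, hk with
  | 0, _ => exact Le.of_eq (by simp only [W]; ring)
  | 1, h => exact absurd rfl h
  | k + 2, _ => exact Le.of_eq (W_rec k).symm

theorem B_X {k : ℕ} (hk : k ≠ 3) : Le (PK * B 2 k) (B 0 (k + 6)) := by
  rw [B_zero]
  match k, hk with
  | 0, _ =>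
    rw [B_le (by omega : 0 ≤ 2)]
    exact ⟨4 * X ^ 2 + 5 * X ^ 3 + X ^ 4, by simp only [W, PQ, PK]; ring⟩
  | 1, _ =>
    rw [B_le (by omega : 1 ≤ 2)]
    exact ⟨4 * X ^ 2 + 8 * X ^ 3 + 3 * X ^ 4, by simp only [W, PM, PL, PQ, PK]; ring⟩
  | 2, _ =>
    rw [B_le (by omega : 2 ≤ 2)]
    exact ⟨3 * X ^ 2 + 7 * X ^ 3 + 4 * X ^ 4 + X ^ 5, by simp only [W, PM, PL, PQ, PK]; ring⟩
  | 3, h => exact absurd rfl h
  | k + 4, _ =>
    rw [show k + 4 = 2 + (k + 2) by ring, B_add]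
    rw [show 2 + (k + 2) + 6 = k + 10 by ring]
    exact W_X k

end H5CP
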