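import Pool.Agent.Lib.H5.CP.Basic

/-!
The number of proper colourings in terms of the clique partition polynomial of the complement.
-/

namespace H5CP

open Finset Polynomial

variable {V κ : Type*} [DecidableEq V] [Fintype V] [DecidableEq κ] [Fintype κ]

open Classical in
/-- maps `S → K` whose fibres are cliques of `H`, extended by `none` outside `S` -/
noncomputable def colSet (H : SimpleGraph V) (S : Finset V) (K : Finset κ) :
    Finset (V → Option κ) :=
  univ.filter (fun c => (∀ v, v ∉ S → c v = none) ∧ (∀ v ∈ S, ∃ i ∈ K, c v = some i) ∧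
    ∀ u ∈ S, ∀ w ∈ S, u ≠ w → c u = c w → H.Adj u w)

theorem mem_colSet {H : SimpleGraph V} {S : Finset V} {K : Finset κ} {c : V → Option κ} :
    c ∈ colSet H S K ↔ (∀ v, v ∉ S → c v = none) ∧ (∀ v ∈ S, ∃ i ∈ K, c v = some i) ∧
    ∀ u ∈ S, ∀ w ∈ S, u ≠ w → c u = c w → H.Adj u w := by
  classical
  simp only [colSet, mem_filter, mem_univ, true_and]

theorem colSet_empty (H : SimpleGraph V) (K : Finset κ) : (colSet H ∅ K).card = 1 := by
  rw [card_eq_one]
  refine ⟨fun _ => none, ?_⟩
  ext c
  rw [mem_colSet, mem_singleton]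
  constructor
  · rintro ⟨h, -⟩
    funext v
    exact h v (by simp)
  · rintro rfl
    exact ⟨fun _ _ => rfl, by simp, by simp⟩

open Classical in
/-- the colour class of `v` -/
noncomputable def cls (S : Finset V) (v : V) (c : V → Option κ) : Finset V :=
  S.filter (fun x => c x = c v)

theorem mem_cls {S : Finset V} {v x : V} {c : V → Option κ} :
    x ∈ cls S v c ↔ x ∈ S ∧ c x = c v := by
  classical
  simp only [cls, mem_filter]

theorem card_colSet_fiber {H : SimpleGraph V} {S C : Finset V} {K : Finset κ} {v : V}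
    (hC : C ∈ cl H v S) {i : κ} (hi : i ∈ K) :
    ((colSet H S K).filter (fun c => (cls S v c, c v) = (C, some i))).card =
      (colSet H (S \ C) (K.erase i)).card := by
  classical
  rw [mem_cl] at hC
  obtain ⟨hCS, hvC, hcl⟩ := hC
  refine card_bij' (fun c _ => fun x => if x ∈ C then none else c x)
    (fun d _ => fun x => if x ∈ C then some i else d x) ?_ ?_ ?_ ?_
  · intro c hc
    rw [mem_filter, mem_colSet, Prod.mk.injEq] at hc
    obtain ⟨⟨h1, h2, h3⟩, h4, h5⟩ := hc
    rw [mem_colSet]
    refine ⟨fun x hx => ?_, fun x hx => ?_, fun x hx y hy hxy => ?_⟩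
    · by_cases hxC : x ∈ C
      · simp [hxC]
      · rw [if_neg hxC]
        apply h1
        intro hxS
        exact hx (mem_sdiff.2 ⟨hxS, hxC⟩)
    · rw [mem_sdiff] at hx
      rw [if_neg hx.2]
      obtain ⟨j, hj, hcj⟩ := h2 x hx.1
      refine ⟨j, mem_erase.2 ⟨?_, hj⟩, hcj⟩
      rintro rfl
      apply hx.2
      rw [← h4, mem_cls]
      exact ⟨hx.1, by rw [hcj, h5]⟩
    · rw [mem_sdiff] at hx hy
      rw [if_neg hx.2, if_neg hy.2]
      exact h3 x hx.1 y hy.1 hxy
  · intro d hd
    rw [mem_colSet] at hd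
    obtain ⟨h1, h2, h3⟩ := hd
    have hdi : ∀ x, x ∉ C → d x ≠ some i := by
      intro x hxC hdx
      by_cases hxS : x ∈ S
      · obtain ⟨j, hj, hdj⟩ := h2 x (mem_sdiff.2 ⟨hxS, hxC⟩)
        rw [hdx] at hdj
        rw [Option.some_inj] at hdj
        rw [mem_erase] at hj
        exact hj.1 hdj.symm
      · rw [h1 x (fun h => hxS (mem_sdiff.1 h).1)] at hdx
        exact absurd hdx (by simp)
    rw [mem_filter, mem_colSet, Prod.mk.injEq]
    refine ⟨⟨fun x hx => ?_, fun x hx => ?_, fun x hx y hy hxy => ?_⟩, ?_, ?_⟩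
    · rw [if_neg (fun h => hx (hCS h))]
      exact h1 x (fun h => hx (mem_sdiff.1 h).1)
    · by_cases hxC : x ∈ C
      · exact ⟨i, hi, by rw [if_pos hxC]⟩
      · obtain ⟨j, hj, hdj⟩ := h2 x (mem_sdiff.2 ⟨hx, hxC⟩)
        exact ⟨j, mem_of_mem_erase hj, by rw [if_neg hxC, hdj]⟩
    · by_cases hxC : x ∈ C
      · by_cases hyC : y ∈ C
        · intro _
          exact hcl hxC hyC hxy
        · rw [if_pos hxC, if_neg hyC]
          intro h
          exact absurd h.symm (hdi y hyC)
      · by_cases hyC : y ∈ C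
        · rw [if_neg hxC, if_pos hyC]
          intro h
          exact absurd h (hdi x hxC)
        · rw [if_neg hxC, if_neg hyC]
          exact h3 x (mem_sdiff.2 ⟨hx, hxC⟩) y (mem_sdiff.2 ⟨hy, hyC⟩) hxy
    · ext x
      rw [mem_cls, if_pos hvC]
      constructor
      · rintro ⟨hxS, h⟩
        by_contra hxC
        rw [if_neg hxC] at h
        exact hdi x hxC h
      · intro hxC
        exact ⟨hCS hxC, by rw [if_pos hxC]⟩
    · show (if v ∈ C then some i else d v) = some i
      rw [if_pos hvC]
  · intro c hc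
    rw [mem_filter, mem_colSet, Prod.mk.injEq] at hc
    obtain ⟨⟨h1, h2, h3⟩, h4, h5⟩ := hc
    funext x
    by_cases hxC : x ∈ C
    · simp only [if_pos hxC]
      rw [← h4, mem_cls] at hxC
      rw [hxC.2, h5]
    · simp only [if_neg hxC]
  · intro d hd
    rw [mem_colSet] at hd
    obtain ⟨h1, h2, h3⟩ := hd
    funext x
    by_cases hxC : x ∈ C
    · simp only [if_pos hxC]
      exact (h1 x (fun h => (mem_sdiff.1 h).2 hxC)).symm
    · simp only [if_neg hxC]

theorem card_colSet {H : SimpleGraph V} {S : Finset V} {K : Finset κ} {v : V} (hv : v ∈ S) :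
    (colSet H S K).card = ∑ C ∈ cl H v S, ∑ i ∈ K, (colSet H (S \ C) (K.erase i)).card := by
  classical
  have hmaps : ∀ c ∈ colSet H S K, (cls S v c, c v) ∈ cl H v S ×ˢ K.image some := by
    intro c hc
    rw [mem_colSet] at hc
    obtain ⟨h1, h2, h3⟩ := hc
    rw [mem_product, mem_cl, mem_image]
    refine ⟨⟨fun x hx => (mem_cls.1 hx).1, mem_cls.2 ⟨hv, rfl⟩, fun x hx y hy hxy => ?_⟩, ?_⟩
    · rw [mem_coe, mem_cls] at hx hy
      exact h3 x hx.1 y hy.1 hxy (by rw [hx.2, hy.2])
    · obtain ⟨i, hi, hci⟩ := h2 v hv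
      exact ⟨i, hi, hci.symm⟩
  rw [card_eq_sum_card_fiberwise hmaps, sum_product]
  refine sum_congr rfl (fun C hC => ?_)
  rw [sum_image (fun a _ b _ h => Option.some_injective _ h)]
  exact sum_congr rfl (fun i hi => card_colSet_fiber hC hi)

/-- the functional giving the number of colourings with `q` colours -/
def F (q n : ℕ) (p : ℕ[X]) : ℕ := ∑ i ∈ range (n + 1), p.coeff i * q.descFactorial (n - i)

theorem F_add (q n : ℕ) (p p' : ℕ[X]) : F q n (p + p') = F q n p + F q n p' := by
  unfold F
  rw [← sum_add_distrib]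
  exact sum_congr rfl (fun i _ => by rw [coeff_add]; ring)

theorem F_sum {ι : Type*} (q n : ℕ) (s : Finset ι) (f : ι → ℕ[X]) :
    F q n (∑ i ∈ s, f i) = ∑ i ∈ s, F q n (f i) := by
  classical
  induction s using Finset.induction_on with
  | empty => simp [F]
  | insert a s ha ih => rw [sum_insert ha, sum_insert ha, F_add, ih]

theorem F_mono {q n : ℕ} {p p' : ℕ[X]} (h : Le p p') : F q n p ≤ F q n p' := by
  obtain ⟨r, rfl⟩ := h
  rw [F_add]
  exact Nat.le_add_right _ _

theorem F_shift (q m c : ℕ) (p : ℕ[X]) (hp : p.natDegree ≤ m) :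
    F q (m + (c + 1)) (X ^ c * p) = q * F (q - 1) m p := by
  unfold F
  rw [show m + (c + 1) + 1 = c + (m + 2) by ring, sum_range_add]
  have h1 : ∑ x ∈ range c, (X ^ c * p).coeff x * q.descFactorial (m + (c + 1) - x) = 0 := by
    apply sum_eq_zero
    intro x hx
    rw [mem_range] at hx
    rw [coeff_X_pow_mul', if_neg (by omega), zero_mul]
  rw [h1, zero_add, sum_range_succ]
  have h2 : (X ^ c * p).coeff (c + (m + 1)) = 0 := by
    rw [coeff_X_pow_mul', if_pos (by omega), Nat.add_sub_cancel_left]
    exact coeff_eq_zero_of_natDegree_lt (by omega)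
  rw [h2, zero_mul, add_zero, mul_sum]
  refine sum_congr rfl (fun i hi => ?_)
  rw [mem_range] at hi
  rw [coeff_X_pow_mul', if_pos (by omega), Nat.add_sub_cancel_left,
    show m + (c + 1) - (c + i) = (m - i) + 1 by omega]
  rcases q with _ | q
  · simp
  · rw [Nat.succ_descFactorial_succ, Nat.add_sub_cancel]
    ring

omit [Fintype V] in
theorem natDegree_P (H : SimpleGraph V) : ∀ (n : ℕ) (S : Finset V), S.card = n →
    (P H S).natDegree ≤ n := by
  intro n
  induction n using Nat.strong_induction_on with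
  | _ n ih =>
    intro S hS
    rcases S.eq_empty_or_nonempty with rfl | ⟨v, hv⟩
    · simp
    · rw [P_exp H hv]
      apply natDegree_sum_le_of_forall_le
      intro C hC
      rw [mem_cl] at hC
      have h1 := ih (S \ C).card (by rw [← hS]; exact card_sdiff_lt hC.1 hC.2.1) (S \ C) rfl
      have h2 : (S \ C).card = n - C.card := by rw [card_sdiff_of_subset hC.1, hS]
      have h3 : C.card ≤ n := by rw [← hS]; exact card_le_card hC.1
      refine le_trans natDegree_mul_le ?_
      rw [natDegree_X_pow]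
      omega

theorem card_colSet_eq (H : SimpleGraph V) : ∀ (n : ℕ) (S : Finset V), S.card = n →
    ∀ K : Finset κ, (colSet H S K).card = F K.card n (P H S) := by
  intro n
  induction n using Nat.strong_induction_on with
  | _ n ih =>
    intro S hS K
    rcases S.eq_empty_or_nonempty with rfl | ⟨v, hv⟩
    · simp at hS
      subst hS
      rw [colSet_empty, P_empty]
      simp [F]
    · rw [card_colSet hv, P_exp H hv, F_sum]
      refine sum_congr rfl (fun C hC => ?_)
      have hC' := mem_cl.1 hC
      have hlt := card_sdiff_lt hC'.1 hC'.2.1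
      have hCn : C.card ≤ n := by rw [← hS]; exact card_le_card hC'.1
      have hC0 : 0 < C.card := card_pos.2 ⟨v, hC'.2.1⟩
      have hcS : (S \ C).card = n - C.card := by rw [card_sdiff_of_subset hC'.1, hS]
      have h1 : ∀ i ∈ K, (colSet H (S \ C) (K.erase i)).card =
          F (K.card - 1) (n - C.card) (P H (S \ C)) := by
        intro i hi
        rw [ih (n - C.card) (by omega) (S \ C) hcS, card_erase_of_mem hi]
      rw [sum_congr rfl h1, sum_const, smul_eq_mul]
      obtain ⟨c, hc⟩ : ∃ c, C.card = c + 1 := ⟨C.card - 1, by omega⟩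
      have h2 := F_shift K.card (n - C.card) c (P H (S \ C)) (natDegree_P H _ _ hcS)
      rw [hc] at h2 ⊢
      rw [show n - (c + 1) + (c + 1) = n by omega] at h2
      rw [show c + 1 - 1 = c by omega, h2]

/-- the number of proper colourings -/
theorem card_coloring (G : SimpleGraph V) :
    Nat.card (G.Coloring κ) = F (Fintype.card κ) (Fintype.card V) (P Gᶜ univ) := by
  classical
  have h1 := card_colSet_eq (κ := κ) Gᶜ (Fintype.card V) univ card_univ univ
  rw [card_univ] at h1
  rw [← h1]
  have h2 : (colSet (κ := κ) Gᶜ univ univ).card = Nat.card (colSet (κ := κ) Gᶜ univ univ) := by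
    rw [Nat.card_eq_fintype_card, Fintype.card_coe]
  rw [h2]
  have hmem : ∀ C : G.Coloring κ, (fun v => some (C v)) ∈ colSet (κ := κ) Gᶜ univ univ := by
    intro C
    rw [mem_colSet]
    refine ⟨fun v hv => absurd (mem_univ v) hv, fun v _ => ⟨C v, mem_univ _, rfl⟩, ?_⟩
    intro u _ w _ huw h
    rw [SimpleGraph.compl_adj]
    refine ⟨huw, fun hadj => ?_⟩
    exact C.valid hadj (Option.some_injective _ h)
  apply Nat.card_eq_of_bijective (fun C : G.Coloring κ =>
    (⟨fun v => some (C v), hmem C⟩ : colSet (κ := κ) Gᶜ univ univ))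
  constructor
  · intro C D h
    rw [Subtype.mk.injEq] at h
    apply RelHom.ext
    intro v
    exact Option.some_injective _ (congrFun h v)
  · rintro ⟨c, hc⟩
    rw [mem_colSet] at hc
    obtain ⟨-, h2, h3⟩ := hc
    choose f hf1 hf2 using fun v => h2 v (mem_univ v)
    refine ⟨SimpleGraph.Coloring.mk f (fun {v w} hvw he => ?_), ?_⟩
    · have h4 := h3 v (mem_univ _) w (mem_univ _) hvw.ne (by rw [hf2 v, hf2 w, he])
      rw [SimpleGraph.compl_adj] at h4
      exact h4.2 hvw
    · apply Subtype.ext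
      funext v
      exact (hf2 v).symm

end H5CP
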