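import Pool.Agent.Lib.H5.CP.Ops
import Pool.Agent.Lib.H5.CP.Bound

/-!
The bound for the clique partition polynomial of a graph with at most as many edges as vertices.
-/

namespace H5CP

open Finset Polynomial

variable {V : Type*} [DecidableEq V]

/-- polynomials of complete graphs -/
noncomputable def Kc : ℕ → ℕ[X]
  | 0 => 1
  | 1 => 1
  | 2 => PM
  | 3 => PQ
  | 4 => PK
  | _ => 0

theorem P_clique {H : SimpleGraph V} : ∀ (n : ℕ), n ≤ 4 → ∀ (T : Finset V), T.card = n →
    H.IsClique (T : Set V) → P H T = Kc n := by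
  classical
  intro n
  induction n using Nat.strong_induction_on with
  | _ n ih =>
    intro hn T hT hcl
    rcases T.eq_empty_or_nonempty with rfl | ⟨v, hv⟩
    · simp at hT
      subst hT
      simp [Kc]
    · have hnb : nb H T v = T.erase v := by
        ext x
        rw [mem_nb, mem_erase]
        constructor
        · rintro ⟨h1, h2⟩
          exact ⟨h2.ne', h1⟩
        · rintro ⟨h1, h2⟩
          exact ⟨h2, hcl hv h2 (Ne.symm h1)⟩
      rw [P_nb H hv, hnb]
      have h1 : (T.erase v).powerset.filter (fun D : Finset V => H.IsClique (D : Set V)) =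
          (T.erase v).powerset := by
        apply filter_true_of_mem
        intro D hD
        rw [mem_powerset] at hD
        exact hcl.subset (by
          intro x hx
          exact mem_of_mem_erase (hD hx))
      rw [h1]
      have hcard : (T.erase v).card = n - 1 := by rw [card_erase_of_mem hv, hT]
      have hn0 : 0 < n := by rw [← hT]; exact card_pos.2 ⟨v, hv⟩
      have h2 : ∀ D ∈ (T.erase v).powerset, X ^ D.card * P H (T \ insert v D) =
          X ^ D.card * Kc (n - 1 - D.card) := by
        intro D hD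
        rw [mem_powerset] at hD
        have hvD : v ∉ D := fun h => by simpa using hD h
        have hDc := card_le_card hD
        rw [hcard] at hDc
        have hsub : insert v D ⊆ T := by
          rw [insert_subset_iff]
          exact ⟨hv, fun x hx => mem_of_mem_erase (hD hx)⟩
        have h3 : (T \ insert v D).card = n - 1 - D.card := by
          rw [card_sdiff_of_subset hsub, card_insert_of_notMem hvD, hT]
          omega
        rw [ih (n - 1 - D.card) (by omega) (by omega) (T \ insert v D) h3 (hcl.subset (by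
          intro x hx
          exact (mem_sdiff.1 hx).1))]
      rw [sum_congr rfl h2, sum_powerset_apply_card (fun j => X ^ j * Kc (n - 1 - j)), hcard]
      interval_cases n
      · simp [Kc]
      · simp [Kc, sum_range_succ, PM]
      · simp [Kc, sum_range_succ, PM, PQ]
        ring
      · simp [Kc, sum_range_succ, PM, PQ, PK, Nat.choose]
        ring

/-- statement of the bound for sets with `n` vertices -/
def Claim (V : Type*) [DecidableEq V] (n : ℕ) : Prop :=
  ∀ (H : SimpleGraph V) (S : Finset V), S.card = n → ∀ a k, n = k + a → e2 H S = 2 * k →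
    Le (P H S) (B a k)

theorem card_sdiff_pair {S : Finset V} {v u : V} (hv : v ∈ S) (hu : u ∈ S) (h : v ≠ u) :
    (S \ {v, u}).card = S.card - 2 := by
  rw [card_sdiff_of_subset, card_pair h]
  intro x hx
  simp only [mem_insert, mem_singleton] at hx
  rcases hx with rfl | rfl <;> assumption

theorem sdiff_pair {S : Finset V} {v u : V} : S \ {v, u} = (S \ {v}) \ {u} := by
  rw [sdiff_sdiff_left]; rfl

/-- removing two vertices -/
theorem e2_pair {H : SimpleGraph V} {S : Finset V} {v u : V} (hv : v ∈ S) (hu : u ∈ S)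
    (h : H.Adj v u) :
    e2 H S + 2 = e2 H (S \ {v, u}) + 2 * (nb H S v).card + 2 * (nb H S u).card := by
  have hne : v ≠ u := h.ne
  have hu' : u ∈ S \ {v} := mem_sdiff.2 ⟨hu, by simpa using hne.symm⟩
  have h5 : nb H (S \ {v}) u = (nb H S u).erase v := by
    rw [nb_sdiff, sdiff_singleton_eq_erase]
  rw [e2_erase hv, e2_erase hu', sdiff_pair, h5]
  have h3 : v ∈ nb H S u := mem_nb.2 ⟨hv, h.symm⟩
  have h4 := card_erase_add_one h3
  omega

/-- a pendant vertex whose neighbour has degree at least two -/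
theorem pend {n : ℕ} (ih : ∀ m < n, Claim V m) {H : SimpleGraph V} {S : Finset V}
    (hS : S.card = n) {a k : ℕ} (hn : n = k + a) (he : e2 H S = 2 * k) {v u : V} (hv : v ∈ S)
    (hnv : nb H S v = {u}) (hu2 : 2 ≤ (nb H S u).card) : Le (P H S) (B a k) := by
  have huS : u ∈ nb H S v := by rw [hnv]; simp
  rw [mem_nb] at huS
  have hne : v ≠ u := huS.2.ne
  have hc := card_sdiff_pair hv huS.1 hne
  have hc1 : (S \ {v}).card = n - 1 := by
    rw [sdiff_singleton_eq_erase, card_erase_of_mem hv, hS]
  have hn2 : 2 ≤ n := by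
    rw [← hS, ← card_pair hne]
    apply card_le_card
    intro x hx
    simp only [mem_insert, mem_singleton] at hx
    rcases hx with rfl | rfl
    · exact hv
    · exact huS.1
  have e1 := e2_erase (H := H) hv
  have e3 := e2_pair hv huS.1 huS.2
  rw [hnv, card_singleton] at e1 e3
  obtain ⟨d, hd⟩ : ∃ d, (nb H S u).card = d + 2 := ⟨(nb H S u).card - 2, by omega⟩
  rw [hd] at e3
  obtain ⟨j, hj⟩ : ∃ j, k = j + d + 2 := ⟨k - d - 2, by omega⟩
  rw [P_deg1 hv hnv]
  have f1 := ih (n - 1) (by omega) H (S \ {v}) hc1 a (k - 1) (by omega) (by omega)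
  have f2 := ih (n - 2) (by omega) H (S \ {v, u}) (by rw [hc, hS]) (a + d) j (by omega) (by omega)
  have f3 := Le.trans f2 (B_III' a j d)
  rw [show k - 1 = (j + d) + 1 by omega] at f1
  rw [hj]
  exact Le.trans (Le.add f1 (Le.mul_left X f3)) (B_II a (j + d))

/-- the case of fewer edges than vertices -/
theorem caseA {n : ℕ} (ih : ∀ m < n, Claim V m) {H : SimpleGraph V} {S : Finset V}
    (hS : S.card = n) {a k : ℕ} (hn : n = k + (a + 1)) (he : e2 H S = 2 * k) :
    Le (P H S) (B (a + 1) k) := by
  obtain ⟨v, hv, hv2⟩ : ∃ v ∈ S, (nb H S v).card < 2 := by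
    apply exists_lt_of_sum_lt
    rw [sum_const, hS, smul_eq_mul]
    unfold e2 at he
    omega
  have hc1 : (S \ {v}).card = n - 1 := by
    rw [sdiff_singleton_eq_erase, card_erase_of_mem hv, hS]
  rcases Nat.lt_or_ge (nb H S v).card 1 with h0 | h1
  · have hnb : nb H S v = ∅ := card_eq_zero.1 (by omega)
    rw [P_deg0 hv hnb]
    have e1 := e2_erase (H := H) hv
    rw [hnb, card_empty] at e1
    exact Le.trans (ih (n - 1) (by omega) H (S \ {v}) hc1 a k (by omega) (by omega)) (B_mono a k)
  · obtain ⟨u, hu⟩ := card_eq_one.1 (by omega : (nb H S v).card = 1)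
    have huS : u ∈ nb H S v := by rw [hu]; simp
    rw [mem_nb] at huS
    have hne : v ≠ u := huS.2.ne
    rcases Nat.lt_or_ge (nb H S u).card 2 with h2 | h2
    · have hvu : v ∈ nb H S u := mem_nb.2 ⟨hv, huS.2.symm⟩
      have h3 : (nb H S u).card = 1 := by
        have := card_pos.2 ⟨v, hvu⟩
        omega
      have h4 : nb H S u = {v} := by
        obtain ⟨x, hx⟩ := card_eq_one.1 h3
        rw [hx] at hvu ⊢
        rw [mem_singleton.1 hvu]
      have h5 : nb H (S \ {v}) u = ∅ := by rw [nb_sdiff, h4]; simp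
      have hu' : u ∈ S \ {v} := mem_sdiff.2 ⟨huS.1, by simpa using hne.symm⟩
      rw [P_deg1 hv hu, P_deg0 hu' h5, ← sdiff_pair]
      have hc := card_sdiff_pair hv huS.1 hne
      have e3 := e2_pair hv huS.1 huS.2
      rw [hu, h4, card_singleton, card_singleton] at e3
      have hk : 1 ≤ k := by omega
      have f2 := ih (n - 2) (by omega) H (S \ {v, u}) (by rw [hc, hS]) a (k - 1) (by omega) (by omega)
      rw [show k = (k - 1) + 1 by omega, ← B_IV]
      refine Le.trans (Le.of_eq ?_) (Le.mul_left PM f2)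
      rw [PM]; ring
    · exact pend ih hS hn he hv hu h2

/-- an edge with many neighbours -/
theorem sigma5 {n : ℕ} (ih : ∀ m < n, Claim V m) {H : SimpleGraph V} {S : Finset V}
    (hS : S.card = n) (he : e2 H S = 2 * n) {u v : V} (hu : u ∈ S) (hv : v ∈ S)
    (huv : H.Adj u v) (h5 : 5 ≤ (nb H S u ∪ nb H S v).card) : Le (P H S) (B 0 n) := by
  have hle : (nb H S u ∪ nb H S v).card ≤ n := by
    rw [← hS]
    apply card_le_card
    intro x hx
    rw [mem_union] at hx
    rcases hx with hx | hx <;> exact (mem_nb.1 hx).1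
  rw [P_del_ctr hu hv huv]
  have e1 := e2_del hu hv huv
  have e3 := e2_ctr hu hv huv
  have hc1 : (S \ {v}).card = n - 1 := by
    rw [sdiff_singleton_eq_erase, card_erase_of_mem hv, hS]
  obtain ⟨j, hj⟩ : ∃ j, (nb H S u ∪ nb H S v).card = j + 5 :=
    ⟨(nb H S u ∪ nb H S v).card - 5, by omega⟩
  rw [hj] at e3 hle
  obtain ⟨i, hi⟩ : ∃ i, n = i + j + 5 := ⟨n - j - 5, by omega⟩
  have f1 := caseA ih (H := del H u v) hS (a := 0) (k := n - 1) (by omega) (by omega)
  have f2 := ih (n - 1) (by omega) (ctr H u v) (S \ {v}) hc1 (3 + j) (i + 1) (by omega) (by omega)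
  have f3 := Le.trans f2 (B_III' 3 (i + 1) j)
  rw [show i + 1 + j = (i + j) + 1 by ring] at f3
  rw [show n - 1 = (i + j) + 4 by omega] at f1
  rw [hi]
  exact Le.trans (Le.add f1 (Le.mul_left X f3)) (B_V (i + j))

/-- the bound for the graph without `v` and a neighbour `u` of `v` -/
theorem rem2 {n : ℕ} (ih : ∀ m < n, Claim V m) {H : SimpleGraph V} {S : Finset V}
    (hS : S.card = n) (he : e2 H S = 2 * n) {v u : V} (hv : v ∈ S) (hu : u ∈ S)
    (hvu : H.Adj v u) {c d : ℕ} (h2 : (nb H S v).card = 2) (hd : (nb H S u).card = d + c + 1) :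
    d + c + 2 ≤ n ∧ Le (P H (S \ {v, u})) (B c (n - c - 2)) := by
  have hne := hvu.ne
  have e3 := e2_pair hv hu hvu
  have hc := card_sdiff_pair hv hu hne
  have hle : (nb H S u).card < n := by
    rw [← hS]
    apply card_lt_card
    rw [ssubset_iff_of_subset (fun x hx => (mem_nb.1 hx).1)]
    exact ⟨u, hu, not_mem_nb_self⟩
  have f := ih (n - 2) (by omega) H (S \ {v, u}) (by rw [hc, hS]) (c + d) (n - 2 - (c + d))
    (by omega) (by omega)
  refine ⟨by omega, Le.trans f (Le.trans (B_III' c (n - 2 - (c + d)) d) (Le.of_eq ?_))⟩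
  congr 1
  omega

/-- a vertex of degree two with nonadjacent neighbours -/
theorem deg2non {n : ℕ} (ih : ∀ m < n, Claim V m) {H : SimpleGraph V} {S : Finset V}
    (hS : S.card = n) (he : e2 H S = 2 * n) {v a b : V} (hv : v ∈ S) (hab : a ≠ b)
    (hnb : nb H S v = {a, b}) (hadj : ¬ H.Adj a b) (ha : 2 ≤ (nb H S a).card)
    (hb : 2 ≤ (nb H S b).card) : Le (P H S) (B 0 n) := by
  have haS : a ∈ nb H S v := by rw [hnb]; simp
  have hbS : b ∈ nb H S v := by rw [hnb]; simp
  rw [mem_nb] at haS hbS
  have hc1 : (S \ {v}).card = n - 1 := by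
    rw [sdiff_singleton_eq_erase, card_erase_of_mem hv, hS]
  have h2 : (nb H S v).card = 2 := by rw [hnb, card_pair hab]
  have e1 := e2_erase (H := H) hv
  rw [h2] at e1
  -- at least four vertices
  have hn4 : 4 ≤ n := by
    have h3 : nb H S a ⊆ (S.erase a).erase b := by
      intro x hx
      rw [mem_erase, mem_erase]
      rw [mem_nb] at hx
      refine ⟨?_, hx.2.ne', hx.1⟩
      rintro rfl
      exact hadj hx.2
    have h4 := card_le_card h3
    rw [card_erase_of_mem (mem_erase.2 ⟨hab.symm, hbS.1⟩), card_erase_of_mem haS.1, hS] at h4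
    omega
  rw [P_deg2 hv hab hnb hadj]
  have f1 := ih (n - 1) (by omega) H (S \ {v}) hc1 1 (n - 2) (by omega) (by omega)
  obtain ⟨da, hda⟩ : ∃ d, (nb H S a).card = d + 1 + 1 := ⟨(nb H S a).card - 2, by omega⟩
  obtain ⟨db, hdb⟩ : ∃ d, (nb H S b).card = d + 1 + 1 := ⟨(nb H S b).card - 2, by omega⟩
  have fa := (rem2 ih hS he hv haS.1 haS.2 h2 hda).2
  have fb := (rem2 ih hS he hv hbS.1 hbS.2 h2 hdb).2
  obtain ⟨j, rfl⟩ : ∃ j, n = j + 4 := ⟨n - 4, by omega⟩
  rw [show j + 4 - 1 - 2 = j + 1 by omega] at fa fb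
  rw [show j + 4 - 2 = j + 2 by omega] at f1
  refine Le.trans (Le.add (Le.add f1 (Le.mul_left X fa)) (Le.mul_left X fb)) ?_
  refine Le.trans (Le.of_eq ?_) (B_VII j)
  ring

/-- a vertex of degree two in a triangle, not all degrees two -/
theorem deg2adj {n : ℕ} (ih : ∀ m < n, Claim V m) {H : SimpleGraph V} {S : Finset V}
    (hS : S.card = n) (he : e2 H S = 2 * n) {v a b : V} (hv : v ∈ S) (hab : a ≠ b)
    (hnb : nb H S v = {a, b}) (hadj : H.Adj a b) (ha : 2 ≤ (nb H S a).card)
    (hb : 3 ≤ (nb H S b).card) (hn5 : 5 ≤ n) : Le (P H S) (B 0 n) := by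
  have haS : a ∈ nb H S v := by rw [hnb]; simp
  have hbS : b ∈ nb H S v := by rw [hnb]; simp
  rw [mem_nb] at haS hbS
  have hc1 : (S \ {v}).card = n - 1 := by
    rw [sdiff_singleton_eq_erase, card_erase_of_mem hv, hS]
  have h2 : (nb H S v).card = 2 := by rw [hnb, card_pair hab]
  have e1 := e2_erase (H := H) hv
  rw [h2] at e1
  rw [P_deg2_adj hv hab hnb hadj]
  have f1 := ih (n - 1) (by omega) H (S \ {v}) hc1 1 (n - 2) (by omega) (by omega)
  obtain ⟨da, hda⟩ : ∃ d, (nb H S a).card = d + 1 + 1 := ⟨(nb H S a).card - 2, by omega⟩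
  obtain ⟨db, hdb⟩ : ∃ d, (nb H S b).card = d + 2 + 1 := ⟨(nb H S b).card - 3, by omega⟩
  have fa := (rem2 ih hS he hv haS.1 haS.2 h2 hda).2
  have fb := (rem2 ih hS he hv hbS.1 hbS.2 h2 hdb).2
  -- three vertices removed
  have e3 := e2_pair hv haS.1 haS.2
  have hb' : b ∈ S \ {v, a} := by
    rw [mem_sdiff, mem_insert, mem_singleton]
    refine ⟨hbS.1, ?_⟩
    rintro (h | h)
    · exact hbS.2.ne' h
    · exact hab h.symm
  have e4 := e2_erase (H := H) hb'
  have hs3 : (S \ {v, a}) \ {b} = S \ {v, a, b} := by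
    ext x
    simp only [mem_sdiff, mem_insert, mem_singleton]
    tauto
  have h5 : nb H (S \ {v, a}) b = nb H S b \ {v, a} := nb_sdiff
  have h6 : (nb H S b \ {v, a}).card = (nb H S b).card - 2 := by
    apply card_sdiff_pair _ _ haS.2.ne
    · exact mem_nb.2 ⟨hv, hbS.2.symm⟩
    · exact mem_nb.2 ⟨haS.1, hadj.symm⟩
  rw [h5, h6, hs3] at e4
  have hc := card_sdiff_pair hv haS.1 haS.2.ne
  have hc3 : (S \ {v, a, b}).card = n - 3 := by
    rw [← hs3, sdiff_singleton_eq_erase, card_erase_of_mem hb', hc, hS]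
    omega
  have f3 := ih (n - 3) (by omega) H (S \ {v, a, b}) hc3 (1 + (da + db)) (n - 4 - (da + db))
    (by omega) (by omega)
  have f3' := Le.trans f3 (B_III' 1 (n - 4 - (da + db)) (da + db))
  rw [show n - 4 - (da + db) + (da + db) = n - 4 by omega] at f3'
  obtain ⟨j, rfl⟩ : ∃ j, n = j + 5 := ⟨n - 5, by omega⟩
  rw [show j + 5 - 1 - 2 = j + 2 by omega] at fa
  rw [show j + 5 - 2 - 2 = j + 1 by omega] at fb
  rw [show j + 5 - 2 = j + 3 by omega] at f1
  rw [show j + 5 - 4 = j + 1 by omega] at f3'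
  exact Le.trans (Le.add (Le.add (Le.add f1 (Le.mul_left X fa)) (Le.mul_left X fb))
    (Le.mul_left (X ^ 2) f3')) (B_XI j)

/-- a triangle component -/
theorem triangle {n : ℕ} (ih : ∀ m < n, Claim V m) {H : SimpleGraph V} {S : Finset V}
    (hS : S.card = n) (he : e2 H S = 2 * n) {v a b : V} (hv : v ∈ S) (hab : a ≠ b)
    (hnb : nb H S v = {a, b}) (hadj : H.Adj a b) (ha : (nb H S a).card = 2)
    (hb : (nb H S b).card = 2) : Le (P H S) (B 0 n) := by
  have haS : a ∈ nb H S v := by rw [hnb]; simp
  have hbS : b ∈ nb H S v := by rw [hnb]; simp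
  rw [mem_nb] at haS hbS
  have hva := haS.2.ne
  have hvb := hbS.2.ne
  have h2 : (nb H S v).card = 2 := by rw [hnb, card_pair hab]
  have na : nb H S a = {v, b} := by
    symm
    apply eq_of_subset_of_card_le
    · intro x hx
      simp only [mem_insert, mem_singleton] at hx
      rcases hx with rfl | rfl
      · exact mem_nb.2 ⟨hv, haS.2.symm⟩
      · exact mem_nb.2 ⟨hbS.1, hadj⟩
    · rw [ha, card_pair hvb]
  have nb' : nb H S b = {v, a} := by
    symm
    apply eq_of_subset_of_card_le
    · intro x hx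
      simp only [mem_insert, mem_singleton] at hx
      rcases hx with rfl | rfl
      · exact mem_nb.2 ⟨hv, hbS.2.symm⟩
      · exact mem_nb.2 ⟨haS.1, hadj.symm⟩
    · rw [hb, card_pair hva]
  rw [P_deg2_adj hv hab hnb hadj]
  have ha1 : a ∈ S \ {v} := by rw [mem_sdiff, mem_singleton]; exact ⟨haS.1, hva.symm⟩
  have hna1 : nb H (S \ {v}) a = {b} := by
    rw [nb_sdiff, na]
    ext x
    simp only [mem_sdiff, mem_insert, mem_singleton]
    constructor
    · rintro ⟨h | h, h'⟩
      · exact absurd h h'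
      · exact h
    · rintro rfl
      exact ⟨Or.inr rfl, hvb.symm⟩
  have hb2 : b ∈ S \ {v, a} := by
    rw [mem_sdiff, mem_insert, mem_singleton]
    refine ⟨hbS.1, ?_⟩
    rintro (h | h)
    · exact hvb h.symm
    · exact hab h.symm
  have ha2 : a ∈ S \ {v, b} := by
    rw [mem_sdiff, mem_insert, mem_singleton]
    refine ⟨haS.1, ?_⟩
    rintro (h | h)
    · exact hva h.symm
    · exact hab h
  have hnb2 : nb H (S \ {v, a}) b = ∅ := by rw [nb_sdiff, nb']; simp
  have hna2 : nb H (S \ {v, b}) a = ∅ := by rw [nb_sdiff, na]; simp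
  have s1 : (S \ {v, a}) \ {b} = S \ {v, a, b} := by
    ext x
    simp only [mem_sdiff, mem_insert, mem_singleton]
    tauto
  have s2 : (S \ {v, b}) \ {a} = S \ {v, a, b} := by
    rw [sdiff_sdiff_left]; congr 1
    ext x
    simp only [sup_eq_union, mem_union, mem_insert, mem_singleton]
    tauto
  have s3 : (S \ {v}) \ {a} = S \ {v, a} := by rw [sdiff_pair]
  have s4 : (S \ {v}) \ {a, b} = S \ {v, a, b} := by
    rw [sdiff_sdiff_left]; congr 1
  have pa := P_deg0 ha2 hna2
  have pb := P_deg0 hb2 hnb2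
  have pv := P_deg1 ha1 hna1
  rw [s3, s4, pb, s1] at pv
  rw [s2] at pa
  rw [s1] at pb
  rw [pv, pa, pb]
  -- the rest
  have e3 := e2_pair hv haS.1 haS.2
  have e4 := e2_erase (H := H) hb2
  rw [hnb2, s1, card_empty] at e4
  rw [h2, ha] at e3
  have hc := card_sdiff_pair hv haS.1 haS.2.ne
  have hc3 : (S \ {v, a, b}).card = n - 3 := by
    rw [← s1, sdiff_singleton_eq_erase, card_erase_of_mem hb2, hc, hS]
    omega
  have hn3 : 3 ≤ n := by omega
  have f3 := ih (n - 3) (by omega) H (S \ {v, a, b}) hc3 0 (n - 3) (by omega) (by omega)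
  have hn4 : n - 3 ≠ 1 := by
    intro h1
    rw [h1] at hc3
    obtain ⟨x, hx⟩ := card_eq_one.1 hc3
    have h6 : e2 H (S \ {v, a, b}) = 2 := by omega
    rw [hx] at h6
    unfold e2 at h6
    rw [sum_singleton] at h6
    have h7 : nb H {x} x = ∅ := by
      ext y
      rw [mem_nb, mem_singleton]
      constructor
      · rintro ⟨rfl, h⟩
        exact absurd h (H.loopless.irrefl _)
      · intro h
        simp at h
    rw [h7] at h6
    simp at h6
  have f4 := Le.trans (Le.mul_left PQ f3) (B_VIII hn4)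
  rw [show n - 3 + 3 = n by omega] at f4
  refine Le.trans (Le.of_eq ?_) f4
  rw [PQ]
  ring

/-- a vertex of degree two in a triangle, one of whose neighbours has degree three: there are at
least five vertices -/
theorem five_le {n : ℕ} {H : SimpleGraph V} {S : Finset V}
    (hS : S.card = n) (he : e2 H S = 2 * n)
    (hpend : ∀ v ∈ S, ∀ u ∈ nb H S v, 2 ≤ (nb H S u).card → 2 ≤ (nb H S v).card)
    {v a b : V} (hv : v ∈ S) (hab : a ≠ b)
    (hnb : nb H S v = {a, b}) (_hadj : H.Adj a b) (ha : 2 ≤ (nb H S a).card)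
    (hb : 3 ≤ (nb H S b).card) : 5 ≤ n := by
  have haS : a ∈ nb H S v := by rw [hnb]; simp
  have hbS : b ∈ nb H S v := by rw [hnb]; simp
  rw [mem_nb] at haS hbS
  have hva := haS.2.ne
  have hvb := hbS.2.ne
  obtain ⟨y, hy, hyT⟩ : ∃ y ∈ nb H S b, y ∉ ({v, a} : Finset V) := by
    apply exists_mem_notMem_of_card_lt_card
    rw [card_pair hva]
    omega
  rw [mem_insert, mem_singleton, not_or] at hyT
  have hyb := (mem_nb.1 hy).2.ne
  have hy2 := hpend y (mem_nb.1 hy).1 b (mem_nb.2 ⟨hbS.1, (mem_nb.1 hy).2.symm⟩) (by omega)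
  have hsub : ({v, a, b, y} : Finset V) ⊆ S := by
    intro x hx
    simp only [mem_insert, mem_singleton] at hx
    rcases hx with rfl | rfl | rfl | rfl
    · exact hv
    · exact haS.1
    · exact hbS.1
    · exact (mem_nb.1 hy).1
  have h1 : v ∉ ({a, b, y} : Finset V) := by
    simp only [mem_insert, mem_singleton, not_or]
    exact ⟨hva, hvb, fun h => hyT.1 h.symm⟩
  have h2 : a ∉ ({b, y} : Finset V) := by
    simp only [mem_insert, mem_singleton, not_or]
    exact ⟨hab, fun h => hyT.2 h.symm⟩
  have h3 : b ∉ ({y} : Finset V) := by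
    simp only [mem_singleton]
    exact hyb
  have hc : ({v, a, b, y} : Finset V).card = 4 := by
    rw [card_insert_of_notMem h1, card_insert_of_notMem h2, card_insert_of_notMem h3,
      card_singleton]
  have hn4 : 4 ≤ n := by rw [← hS, ← hc]; exact card_le_card hsub
  have hsum : ∑ x ∈ ({v, a, b, y} : Finset V), (nb H S x).card ≤ e2 H S := by
    unfold e2
    exact sum_le_sum_of_subset hsub
  rw [sum_insert h1, sum_insert h2, sum_insert h3, sum_singleton] at hsum
  have hv2 : (nb H S v).card = 2 := by rw [hnb, card_pair hab]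
  omega

/-- a component which is a complete graph with four vertices -/
theorem kfour {n : ℕ} (ih : ∀ m < n, Claim V m) {H : SimpleGraph V} {S : Finset V}
    (hS : S.card = n) (he : e2 H S = 2 * n) {T : Finset V} (hTS : T ⊆ S) (hT : T.card = 4)
    (hcl : H.IsClique (T : Set V)) (hcomp : ∀ u ∈ T, ∀ w ∈ S, w ∉ T → ¬ H.Adj u w)
    (hdeg : ∀ x ∈ S, 1 ≤ (nb H S x).card ∧ (nb H S x).card ≠ 2) : Le (P H S) (B 0 n) := by
  have hnbT : ∀ x ∈ T, nb H S x = T.erase x := by
    intro x hx
    ext y
    rw [mem_nb, mem_erase]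
    constructor
    · rintro ⟨h1, h2⟩
      refine ⟨h2.ne', ?_⟩
      by_contra h3
      exact hcomp x hx y h1 h3 h2
    · rintro ⟨h1, h2⟩
      exact ⟨hTS h2, hcl hx h2 (Ne.symm h1)⟩
  have hnbS : ∀ x ∈ S \ T, nb H (S \ T) x = nb H S x := by
    intro x hx
    rw [mem_sdiff] at hx
    rw [nb_sdiff, Finset.sdiff_eq_self_iff_disjoint, disjoint_left]
    intro y hy hyT
    rw [mem_nb] at hy
    exact hcomp y hyT x hx.1 hx.2 hy.2.symm
  have hes : e2 H S = 12 + e2 H (S \ T) := by
    unfold e2
    rw [← sum_sdiff hTS, add_comm]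
    congr 1
    · rw [sum_congr rfl (fun x hx => by rw [hnbT x hx, card_erase_of_mem hx, hT]), sum_const, hT]
      rfl
    · exact sum_congr rfl (fun x hx => by rw [hnbS x hx])
  have hc : (S \ T).card = n - 4 := by rw [card_sdiff_of_subset hTS, hS, hT]
  have hn4 : 4 ≤ n := by rw [← hS, ← hT]; exact card_le_card hTS
  have hn6 : 6 ≤ n := by omega
  have hn9 : n - 6 ≠ 3 := by
    intro h9
    have h5 : (S \ T).card = 5 := by omega
    have h6 : e2 H (S \ T) = 6 := by omega
    by_cases hall : ∀ x ∈ S \ T, (nb H (S \ T) x).card = 1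
    · unfold e2 at h6
      rw [sum_congr rfl hall, sum_const, h5] at h6
      simp at h6
    · push Not at hall
      obtain ⟨x, hx, hx1⟩ := hall
      have hdx := hdeg x (mem_sdiff.1 hx).1
      rw [← hnbS x hx] at hdx
      have h7 : 3 ≤ (nb H (S \ T) x).card := by omega
      unfold e2 at h6
      rw [← sum_sdiff (singleton_subset_iff.2 hx), sum_singleton] at h6
      have h8 : ∑ y ∈ (S \ T) \ {x}, 1 ≤ ∑ y ∈ (S \ T) \ {x}, (nb H (S \ T) y).card := by
        apply sum_le_sum
        intro y hy
        have hyS := (mem_sdiff.1 hy).1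
        rw [hnbS y hyS]
        exact (hdeg y (mem_sdiff.1 hyS).1).1
      rw [sum_const, smul_eq_mul, mul_one, sdiff_singleton_eq_erase, card_erase_of_mem hx, h5] at h8
      rw [sdiff_singleton_eq_erase] at h6
      omega
  rw [P_union' hTS hcomp, P_clique 4 le_rfl T hT hcl]
  have f := ih (n - 4) (by omega) H (S \ T) hc 2 (n - 6) (by omega) (by omega)
  have f2 := Le.trans (Le.mul_left PK f) (B_X hn9)
  rw [show n - 6 + 6 = n by omega] at f2
  exact f2

/-- the case of as many edges as vertices, no isolated vertices -/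
theorem caseB {n : ℕ} (ih : ∀ m < n, Claim V m) {H : SimpleGraph V} {S : Finset V}
    (hS : S.card = n) (he : e2 H S = 2 * n) (hiso : ∀ v ∈ S, nb H S v ≠ ∅) :
    Le (P H S) (B 0 n) := by
  rcases Nat.eq_zero_or_pos n with hn0 | hn0
  · subst hn0
    rw [card_eq_zero] at hS
    subst hS
    rw [P_empty, B_le le_rfl, pow_zero]
    exact Le.refl _
  have hdeg1 : ∀ v ∈ S, 1 ≤ (nb H S v).card := fun v hv =>
    card_pos.2 (nonempty_iff_ne_empty.2 (hiso v hv))
  -- pendant vertices
  by_cases hpend : ∃ v ∈ S, ∃ u, nb H S v = {u} ∧ 2 ≤ (nb H S u).card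
  · obtain ⟨v, hv, u, hu, hu2⟩ := hpend
    exact pend ih hS (a := 0) (k := n) (by omega) he hv hu hu2
  have hpend' : ∀ v ∈ S, ∀ u ∈ nb H S v, 2 ≤ (nb H S u).card → 2 ≤ (nb H S v).card := by
    intro v hv u hu hu2
    by_contra hlt
    have h1 : (nb H S v).card = 1 := by
      have := hdeg1 v hv
      omega
    obtain ⟨x, hx⟩ := card_eq_one.1 h1
    rw [hx, mem_singleton] at hu
    subst hu
    exact hpend ⟨v, hv, u, hx, hu2⟩
  -- edges with many neighbours
  by_cases h5 : ∃ u ∈ S, ∃ v ∈ S, H.Adj u v ∧ 5 ≤ (nb H S u ∪ nb H S v).card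
  · obtain ⟨u, hu, v, hv, huv, h5⟩ := h5
    exact sigma5 ih hS he hu hv huv h5
  push Not at h5
  -- vertices of degree two
  by_cases h2 : ∃ v ∈ S, (nb H S v).card = 2
  · obtain ⟨v, hv, hv2⟩ := h2
    obtain ⟨a, b, hab, hnb⟩ := card_eq_two.1 hv2
    have haS : a ∈ nb H S v := by rw [hnb]; simp
    have hbS : b ∈ nb H S v := by rw [hnb]; simp
    rw [mem_nb] at haS hbS
    have hva : v ∈ nb H S a := mem_nb.2 ⟨hv, haS.2.symm⟩
    have hvb : v ∈ nb H S b := mem_nb.2 ⟨hv, hbS.2.symm⟩
    have ha2 := hpend' a haS.1 v hva (by omega)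
    have hb2 := hpend' b hbS.1 v hvb (by omega)
    by_cases hadj : H.Adj a b
    · rcases Nat.eq_or_lt_of_le ha2 with ha | ha
      · rcases Nat.eq_or_lt_of_le hb2 with hb | hb
        · exact triangle ih hS he hv hab hnb hadj ha.symm hb.symm
        · refine deg2adj ih hS he hv hab hnb hadj ha2 hb ?_
          exact five_le hS he hpend' hv hab hnb hadj ha2 hb
      · have hnb' : nb H S v = {b, a} := by rw [hnb, pair_comm]
        refine deg2adj ih hS he hv hab.symm hnb' hadj.symm hb2 ha ?_
        exact five_le hS he hpend' hv hab.symm hnb' hadj.symm hb2 ha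
    · exact deg2non ih hS he hv hab hnb hadj ha2 hb2
  · push Not at h2
    -- a vertex of degree at least three
    obtain ⟨u, hu, hu2⟩ : ∃ u ∈ S, 2 ≤ (nb H S u).card := by
      by_contra hcon
      push Not at hcon
      have : e2 H S ≤ n := by
        unfold e2
        calc ∑ v ∈ S, (nb H S v).card ≤ ∑ v ∈ S, 1 := sum_le_sum (fun v hv => by
              have := hcon v hv
              omega)
          _ = n := by rw [sum_const, smul_eq_mul, mul_one, hS]
      omega
    have hu3 : 3 ≤ (nb H S u).card := by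
      have := h2 u hu
      omega
    have hun : ∀ w ∈ nb H S u, insert u (nb H S u) ⊆ nb H S u ∪ nb H S w := by
      intro w hw
      rw [insert_subset_iff]
      refine ⟨mem_union_right _ (mem_nb.2 ⟨hu, (mem_nb.1 hw).2.symm⟩), subset_union_left⟩
    have hci : (insert u (nb H S u)).card = (nb H S u).card + 1 :=
      card_insert_of_notMem not_mem_nb_self
    obtain ⟨w₀, hw₀⟩ := card_pos.1 (by omega : 0 < (nb H S u).card)
    have hu3' : (nb H S u).card = 3 := by
      have h6 := card_le_card (hun w₀ hw₀)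
      have h7 := h5 u hu w₀ (mem_nb.1 hw₀).1 (mem_nb.1 hw₀).2
      omega
    have hT4 : (insert u (nb H S u)).card = 4 := by rw [hci, hu3']
    have heq : ∀ w ∈ nb H S u, nb H S u ∪ nb H S w = insert u (nb H S u) := by
      intro w hw
      symm
      apply eq_of_subset_of_card_le (hun w hw)
      have h7 := h5 u hu w (mem_nb.1 hw).1 (mem_nb.1 hw).2
      omega
    have hnw : ∀ w ∈ nb H S u, nb H S w = (insert u (nb H S u)).erase w := by
      intro w hw
      apply eq_of_subset_of_card_le
      · intro x hx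
        rw [mem_erase]
        refine ⟨(mem_nb.1 hx).2.ne', ?_⟩
        rw [← heq w hw]
        exact mem_union_right _ hx
      · have hwS := (mem_nb.1 hw).1
        have h8 := hpend' w hwS u (mem_nb.2 ⟨hu, (mem_nb.1 hw).2.symm⟩) hu2
        have h9 := h2 w hwS
        rw [card_erase_of_mem (mem_insert_of_mem hw), hT4]
        omega
    apply kfour ih hS he (T := insert u (nb H S u))
    · rw [insert_subset_iff]
      exact ⟨hu, fun x hx => (mem_nb.1 hx).1⟩
    · exact hT4
    · intro x hx y hy hxy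
      rw [mem_coe, mem_insert] at hx hy
      rcases hx with rfl | hx
      · rcases hy with rfl | hy
        · exact absurd rfl hxy
        · exact (mem_nb.1 hy).2
      · have : y ∈ nb H S x := by
          rw [hnw x hx, mem_erase, mem_insert]
          exact ⟨hxy.symm, hy⟩
        exact (mem_nb.1 this).2
    · intro x hx w hw hwT hadj
      rw [mem_insert] at hx
      rcases hx with rfl | hx
      · exact hwT (mem_insert_of_mem (mem_nb.2 ⟨hw, hadj⟩))
      · have : w ∈ nb H S x := mem_nb.2 ⟨hw, hadj⟩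
        rw [hnw x hx] at this
        exact hwT (mem_of_mem_erase this)
    · intro x hx
      exact ⟨hdeg1 x hx, h2 x hx⟩

open Classical in
/-- number of isolated vertices -/
noncomputable def iso (H : SimpleGraph V) (S : Finset V) : ℕ :=
  (S.filter (fun v => nb H S v = ∅)).card

/-- as many edges as vertices -/
theorem caseB' {n : ℕ} (ih : ∀ m < n, Claim V m) : ∀ (j : ℕ) {H : SimpleGraph V} {S : Finset V},
    iso H S = j → S.card = n → e2 H S = 2 * n → Le (P H S) (B 0 n) := by
  classical
  intro j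
  induction j using Nat.strong_induction_on with
  | _ j ihj =>
    intro H S hj hS he
    by_cases hiso : ∀ v ∈ S, nb H S v ≠ ∅
    · exact caseB ih hS he hiso
    · push Not at hiso
      obtain ⟨z, hz, hz0⟩ := hiso
      have hn0 : 0 < n := by rw [← hS]; exact card_pos.2 ⟨z, hz⟩
      obtain ⟨v, hv, hv2⟩ : ∃ v ∈ S, 2 ≤ (nb H S v).card := by
        by_contra hcon
        push Not at hcon
        have : e2 H S ≤ n := by
          unfold e2
          calc ∑ v ∈ S, (nb H S v).card ≤ ∑ v ∈ S, 1 := sum_le_sum (fun v hv => by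
                have := hcon v hv
                omega)
            _ = n := by rw [sum_const, smul_eq_mul, mul_one, hS]
        omega
      obtain ⟨w, hw, w', hw', hww'⟩ := one_lt_card.1 (by omega : 1 < (nb H S v).card)
      have hwS := (mem_nb.1 hw).1
      have hvw := (mem_nb.1 hw).2
      have hzw : z ≠ w := by
        rintro rfl
        have : v ∈ nb H S z := mem_nb.2 ⟨hv, hvw.symm⟩
        rw [hz0] at this
        simp at this
      have hzv : z ≠ v := by
        rintro rfl
        rw [hz0] at hw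
        simp at hw
      have h1 := P_shift hv hwS hz hvw hz0 hzw
      have h2 := e2_shift hv hwS hz hvw hz0 hzw
      refine Le.trans h1 (ihj _ ?_ rfl hS (by rw [h2, he]))
      rw [← hj]
      apply card_lt_card
      rw [ssubset_iff_of_subset]
      · refine ⟨z, mem_filter.2 ⟨hz, hz0⟩, ?_⟩
        rw [mem_filter]
        rintro ⟨-, h3⟩
        have : w ∈ nb (mv H v w z hzw) S z := mem_nb.2 ⟨hwS, Or.inr (Or.inl ⟨rfl, rfl⟩)⟩
        rw [h3] at this
        simp at this
      · intro x hx
        rw [mem_filter] at hx ⊢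
        refine ⟨hx.1, ?_⟩
        by_contra hne
        obtain ⟨y, hy⟩ := nonempty_iff_ne_empty.2 hne
        have hyS := (mem_nb.1 hy).1
        have hxy := (mem_nb.1 hy).2
        have hno : ∀ y', y' ∈ S → ¬ (mv H v w z hzw).Adj x y' := by
          intro y' hy' h3
          have : y' ∈ nb (mv H v w z hzw) S x := mem_nb.2 ⟨hy', h3⟩
          rw [hx.2] at this
          simp at this
        by_cases hxw : x = w
        · subst hxw
          exact hno z hz (Or.inr (Or.inr ⟨rfl, rfl⟩))
        · by_cases hyw : y = w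
          · subst hyw
            by_cases hxv : x = v
            · subst hxv
              apply hno w' (mem_nb.1 hw').1
              exact (mv_adj_off hzw hxw (Ne.symm hww')).2 (mem_nb.1 hw').2
            · apply hno y hyS
              exact Or.inl ⟨hxy, fun h => hxv h.1, fun h => hxw h.1⟩
          · exact hno y hyS ((mv_adj_off hzw hxw hyw).2 hxy)

/-- the bound for the clique partition polynomial of a graph with `k` edges and `k + a` vertices -/
theorem claim_all : ∀ n, Claim V n := by
  intro n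
  induction n using Nat.strong_induction_on with
  | _ n ih =>
    intro H S hS a k hn he
    rcases a with _ | a
    · rw [add_zero] at hn
      subst hn
      exact caseB' ih _ rfl hS he
    · exact caseA ih hS hn he

end H5CP
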