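import Pool.Agent.Lib.H5.CP.Basic

/-!
Degrees, expansions at vertices of small degree, deletion-contraction and the shift of an edge.
-/

namespace H5CP

open Finset Polynomial

variable {V : Type*} [DecidableEq V]

open Classical in
/-- the neighbours of `v` in `S` -/
noncomputable def nb (H : SimpleGraph V) (S : Finset V) (v : V) : Finset V :=
  S.filter (fun w => H.Adj v w)

theorem mem_nb {H : SimpleGraph V} {S : Finset V} {v w : V} :
    w ∈ nb H S v ↔ w ∈ S ∧ H.Adj v w := by
  classical
  simp only [nb, mem_filter]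

/-- twice the number of edges inside `S` -/
noncomputable def e2 (H : SimpleGraph V) (S : Finset V) : ℕ := ∑ v ∈ S, (nb H S v).card

theorem nb_congr {H H' : SimpleGraph V} {S : Finset V} {v : V}
    (h : ∀ w ∈ S, (H.Adj v w ↔ H'.Adj v w)) : nb H S v = nb H' S v := by
  ext w
  rw [mem_nb, mem_nb]
  constructor
  · rintro ⟨h1, h2⟩; exact ⟨h1, (h w h1).1 h2⟩
  · rintro ⟨h1, h2⟩; exact ⟨h1, (h w h1).2 h2⟩

theorem e2_congr {H H' : SimpleGraph V} {S : Finset V}
    (h : ∀ u ∈ S, ∀ w ∈ S, (H.Adj u w ↔ H'.Adj u w)) : e2 H S = e2 H' S := by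
  unfold e2
  exact sum_congr rfl (fun v hv => by rw [nb_congr (fun w hw => h v hv w hw)])

theorem nb_sdiff {H : SimpleGraph V} {S T : Finset V} {v : V} :
    nb H (S \ T) v = nb H S v \ T := by
  ext w
  simp only [mem_nb, mem_sdiff]
  tauto

theorem not_mem_nb_self {H : SimpleGraph V} {S : Finset V} {v : V} : v ∉ nb H S v := by
  rw [mem_nb]
  rintro ⟨-, h⟩
  exact H.loopless.irrefl v h

/-- removing a vertex -/
theorem e2_erase {H : SimpleGraph V} {S : Finset V} {v : V} (hv : v ∈ S) :
    e2 H S = e2 H (S \ {v}) + 2 * (nb H S v).card := by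
  unfold e2
  rw [← sum_sdiff (singleton_subset_iff.2 hv), sum_singleton]
  have h1 : ∀ w ∈ S \ {v}, (nb H S w).card =
      (nb H (S \ {v}) w).card + (if w ∈ nb H S v then 1 else 0) := by
    intro w hw
    rw [nb_sdiff]
    by_cases hwv : w ∈ nb H S v
    · rw [if_pos hwv]
      have : v ∈ nb H S w := by
        rw [mem_nb] at hwv ⊢
        exact ⟨hv, hwv.2.symm⟩
      rw [sdiff_singleton_eq_erase, card_erase_add_one this]
    · rw [if_neg hwv, add_zero]
      have : v ∉ nb H S w := by
        rw [mem_nb] at hwv ⊢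
        rw [mem_sdiff] at hw
        rintro ⟨-, h⟩
        exact hwv ⟨hw.1, h.symm⟩
      rw [sdiff_singleton_eq_erase, erase_eq_of_notMem this]
  rw [sum_congr rfl h1, sum_add_distrib, ← card_filter]
  have h2 : (S \ {v}).filter (fun w => w ∈ nb H S v) = nb H S v := by
    ext w
    rw [mem_filter, mem_sdiff, mem_singleton]
    constructor
    · exact fun h => h.2
    · intro h
      refine ⟨⟨(mem_nb.1 h).1, ?_⟩, h⟩
      rintro rfl
      exact not_mem_nb_self h
  rw [h2]
  ring

open Classical in
/-- expansion at a vertex in terms of cliques in its neighbourhood -/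
theorem P_nb (H : SimpleGraph V) {S : Finset V} {v : V} (hv : v ∈ S) :
    P H S = ∑ D ∈ (nb H S v).powerset.filter (fun D : Finset V => H.IsClique (D : Set V)),
      X ^ D.card * P H (S \ insert v D) := by
  rw [P_exp H hv]
  refine sum_bij' (fun C _ => C.erase v) (fun D _ => insert v D) ?_ ?_ ?_ ?_ ?_
  · intro C hC
    rw [mem_cl] at hC
    rw [mem_filter, mem_powerset]
    refine ⟨fun x hx => ?_, ?_⟩
    · rw [mem_erase] at hx
      rw [mem_nb]
      exact ⟨hC.1 hx.2, hC.2.2 hC.2.1 hx.2 (Ne.symm hx.1)⟩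
    · exact hC.2.2.subset (by rw [coe_erase]; exact Set.diff_subset)
  · intro D hD
    rw [mem_filter, mem_powerset] at hD
    rw [mem_cl]
    refine ⟨?_, mem_insert_self _ _, ?_⟩
    · rw [insert_subset_iff]
      exact ⟨hv, fun x hx => (mem_nb.1 (hD.1 hx)).1⟩
    · rw [coe_insert]
      rw [SimpleGraph.isClique_insert]
      exact ⟨hD.2, fun x hx _ => (mem_nb.1 (hD.1 hx)).2⟩
  · intro C hC
    rw [mem_cl] at hC
    exact insert_erase hC.2.1
  · intro D hD
    rw [mem_filter, mem_powerset] at hD
    exact erase_insert (fun h => not_mem_nb_self (hD.1 h))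
  · intro C hC
    rw [mem_cl] at hC
    try simp only
    rw [insert_erase hC.2.1, card_erase_of_mem hC.2.1]

theorem P_deg0 {H : SimpleGraph V} {S : Finset V} {v : V} (hv : v ∈ S) (h : nb H S v = ∅) :
    P H S = P H (S \ {v}) := by
  classical
  rw [P_nb H hv, h, powerset_empty, filter_singleton, if_pos]
  · simp
  · simp

theorem P_deg1 {H : SimpleGraph V} {S : Finset V} {v u : V} (hv : v ∈ S) (h : nb H S v = {u}) :
    P H S = P H (S \ {v}) + X * P H (S \ {v, u}) := by
  classical
  have h1 : (({u} : Finset V).powerset.filter (fun D : Finset V => H.IsClique (D : Set V))) = {∅, {u}} := by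
    ext D
    simp only [mem_filter, mem_powerset, mem_insert, mem_singleton, subset_singleton_iff]
    constructor
    · exact fun h => h.1
    · rintro (rfl | rfl) <;> simp
  rw [P_nb H hv, h, h1, sum_pair (by simp)]
  simp

theorem P_deg2 {H : SimpleGraph V} {S : Finset V} {v a b : V} (hv : v ∈ S) (hab : a ≠ b)
    (h : nb H S v = {a, b}) (hadj : ¬ H.Adj a b) :
    P H S = P H (S \ {v}) + X * P H (S \ {v, a}) + X * P H (S \ {v, b}) := by
  classical
  have h1 : (({a, b} : Finset V).powerset.filter (fun D : Finset V => H.IsClique (D : Set V))) =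
      {∅, {a}, {b}} := by
    ext D
    rw [mem_filter, mem_powerset, subset_insert_iff]
    constructor
    · rintro ⟨h1, h2⟩
      by_cases haD : a ∈ D
      · by_cases hbD : b ∈ D
        · exact absurd (h2 haD hbD hab) hadj
        · have : D = {a} := by
            ext x
            rw [mem_singleton]
            constructor
            · intro hx
              by_contra hxa
              have := h1 (mem_erase.2 ⟨hxa, hx⟩)
              rw [mem_singleton] at this
              subst this
              exact hbD hx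
            · rintro rfl; exact haD
          simp [this]
      · rw [erase_eq_of_notMem haD, subset_singleton_iff] at h1
        rcases h1 with rfl | rfl <;> simp
    · intro hD
      simp only [mem_insert, mem_singleton] at hD
      rcases hD with rfl | rfl | rfl
      · simp
      · simp
      · refine ⟨?_, by simp⟩
        rw [erase_eq_of_notMem]
        simpa using hab
  rw [P_nb H hv, h, h1, sum_insert, sum_pair]
  · simp
    ring
  · simpa using hab
  · simp

theorem P_deg2_adj {H : SimpleGraph V} {S : Finset V} {v a b : V} (hv : v ∈ S) (hab : a ≠ b)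
    (h : nb H S v = {a, b}) (hadj : H.Adj a b) :
    P H S = P H (S \ {v}) + X * P H (S \ {v, a}) + X * P H (S \ {v, b})
      + X ^ 2 * P H (S \ {v, a, b}) := by
  classical
  have h1 : (({a, b} : Finset V).powerset.filter (fun D : Finset V => H.IsClique (D : Set V))) =
      {∅, {a}, {b}, {a, b}} := by
    ext D
    rw [mem_filter, mem_powerset]
    constructor
    · rintro ⟨h1, h2⟩
      have : D ∈ ({a, b} : Finset V).powerset := mem_powerset.2 h1
      simp only [powerset_insert, mem_union, mem_image] at this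
      simp only [mem_insert, mem_singleton]
      rcases this with h3 | ⟨E, hE, rfl⟩
      · rw [mem_powerset, subset_singleton_iff] at h3
        rcases h3 with h3 | h3
        · left; exact h3
        · right; right; left; exact h3
      · rw [mem_powerset, subset_singleton_iff] at hE
        rcases hE with rfl | rfl
        · right; left; rfl
        · right; right; right; rfl
    · intro hD
      simp only [mem_insert, mem_singleton] at hD
      rcases hD with rfl | rfl | rfl | rfl
      · simp
      · simp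
      · simp
      · refine ⟨le_rfl, ?_⟩
        rw [coe_insert, coe_singleton, SimpleGraph.isClique_insert]
        simp [hadj]
  have ne1 : ({a} : Finset V) ≠ {b} := by simpa using hab
  have ne2 : ({a} : Finset V) ≠ {a, b} := by
    intro h
    have : b ∈ ({a} : Finset V) := by rw [h]; simp
    rw [mem_singleton] at this
    exact hab this.symm
  have ne3 : ({b} : Finset V) ≠ {a, b} := by
    intro h
    have : a ∈ ({b} : Finset V) := by rw [h]; simp
    rw [mem_singleton] at this
    exact hab this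
  rw [P_nb H hv, h, h1, sum_insert, sum_insert, sum_pair ne3]
  · simp only [card_empty, pow_zero, one_mul, card_singleton, pow_one, card_pair hab]
    rw [insert_empty_eq]
    ring
  · simp only [mem_insert, mem_singleton, not_or]
    exact ⟨ne1, ne2⟩
  · simp only [mem_insert, mem_singleton, not_or]
    exact ⟨(singleton_ne_empty a).symm, (singleton_ne_empty b).symm, (insert_ne_empty a {b}).symm⟩

/-- delete the edge `u v` -/
def del (H : SimpleGraph V) (u v : V) : SimpleGraph V where
  Adj a b := H.Adj a b ∧ ¬ (a = u ∧ b = v) ∧ ¬ (a = v ∧ b = u)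
  symm := ⟨fun _ _ h => ⟨h.1.symm, fun h' => h.2.2 ⟨h'.2, h'.1⟩, fun h' => h.2.1 ⟨h'.2, h'.1⟩⟩⟩
  loopless := ⟨fun a h => H.loopless.irrefl a h.1⟩

/-- contract the edge `u v` to `u`; only the common neighbours stay -/
def ctr (H : SimpleGraph V) (u v : V) : SimpleGraph V where
  Adj a b := H.Adj a b ∧ (a = u → H.Adj v b) ∧ (b = u → H.Adj v a)
  symm := ⟨fun _ _ h => ⟨h.1.symm, h.2.2, h.2.1⟩⟩
  loopless := ⟨fun a h => H.loopless.irrefl a h.1⟩

/-- deletion-contraction -/
theorem P_del_ctr {H : SimpleGraph V} {S : Finset V} {u v : V} (hu : u ∈ S) (hv : v ∈ S)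
    (h : H.Adj u v) : P H S = P (del H u v) S + X * P (ctr H u v) (S \ {v}) := by
  classical
  have huv : u ≠ v := h.ne
  rw [P_exp H hv, ← sum_filter_add_sum_filter_not (cl H v S) (fun C => u ∉ C)]
  congr 1
  · rw [P_exp (del H u v) hv]
    have h1 : (cl H v S).filter (fun C => u ∉ C) = cl (del H u v) v S := by
      ext C
      rw [mem_filter, mem_cl, mem_cl]
      constructor
      · rintro ⟨⟨h1, h2, h3⟩, h4⟩
        refine ⟨h1, h2, fun x hx y hy hxy => ⟨h3 hx hy hxy, ?_, ?_⟩⟩
        · rintro ⟨rfl, -⟩; exact h4 hx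
        · rintro ⟨-, rfl⟩; exact h4 hy
      · rintro ⟨h1, h2, h3⟩
        refine ⟨⟨h1, h2, fun x hx y hy hxy => (h3 hx hy hxy).1⟩, fun h4 => ?_⟩
        exact (h3 h4 h2 huv).2.1 ⟨rfl, rfl⟩
    rw [h1]
    refine sum_congr rfl (fun C hC => ?_)
    rw [mem_cl] at hC
    congr 1
    apply P_congr'
    intro a ha b hb
    rw [mem_sdiff] at ha hb
    constructor
    · intro h2
      refine ⟨h2, ?_, ?_⟩
      · rintro ⟨-, rfl⟩; exact hb.2 hC.2.1
      · rintro ⟨rfl, -⟩; exact ha.2 hC.2.1
    · exact fun h2 => h2.1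
  · have hu' : u ∈ S \ {v} := mem_sdiff.2 ⟨hu, by simpa using huv⟩
    rw [P_exp (ctr H u v) hu', mul_sum]
    refine sum_bij' (fun C _ => C.erase v) (fun D _ => insert v D) ?_ ?_ ?_ ?_ ?_
    · intro C hC
      rw [mem_filter, mem_cl, not_not] at hC
      obtain ⟨⟨h1, h2, h3⟩, h4⟩ := hC
      rw [mem_cl]
      refine ⟨fun x hx => ?_, mem_erase.2 ⟨huv, h4⟩, ?_⟩
      · rw [mem_erase] at hx
        rw [mem_sdiff, mem_singleton]
        exact ⟨h1 hx.2, hx.1⟩
      · intro x hx y hy hxy
        rw [mem_coe, mem_erase] at hx hy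
        exact ⟨h3 hx.2 hy.2 hxy, fun _ => h3 h2 hy.2 (Ne.symm hy.1),
          fun _ => h3 h2 hx.2 (Ne.symm hx.1)⟩
    · intro D hD
      rw [mem_cl] at hD
      obtain ⟨h1, h2, h3⟩ := hD
      rw [mem_filter, mem_cl, not_not]
      refine ⟨⟨?_, mem_insert_self _ _, ?_⟩, mem_insert_of_mem h2⟩
      · rw [insert_subset_iff]
        exact ⟨hv, fun x hx => (mem_sdiff.1 (h1 hx)).1⟩
      · rw [coe_insert, SimpleGraph.isClique_insert]
        refine ⟨fun x hx y hy hxy => (h3 hx hy hxy).1, fun x hx hvx => ?_⟩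
        by_cases hxu : x = u
        · rw [hxu]; exact h.symm
        · exact (h3 h2 hx (Ne.symm hxu)).2.1 rfl
    · intro C hC
      rw [mem_filter, mem_cl] at hC
      exact insert_erase hC.1.2.1
    · intro D hD
      rw [mem_cl] at hD
      apply erase_insert
      intro hvD
      have := hD.1 hvD
      rw [mem_sdiff, mem_singleton] at this
      exact this.2 rfl
    · intro C hC
      rw [mem_filter, mem_cl, not_not] at hC
      obtain ⟨⟨h1, h2, h3⟩, h4⟩ := hC
      have h5 : (S \ {v}) \ C.erase v = S \ C := by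
        ext x
        simp only [mem_sdiff, mem_singleton, mem_erase]
        constructor
        · rintro ⟨⟨h6, h7⟩, h8⟩
          exact ⟨h6, fun h9 => h8 ⟨h7, h9⟩⟩
        · rintro ⟨h6, h7⟩
          refine ⟨⟨h6, ?_⟩, fun h8 => h7 h8.2⟩
          rintro rfl
          exact h7 h2
      try simp only
      rw [h5, card_erase_of_mem h2]
      have h6 : P (ctr H u v) (S \ C) = P H (S \ C) := by
        apply P_congr'
        intro a ha b hb
        rw [mem_sdiff] at ha hb
        constructor
        · exact fun h7 => h7.1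
        · intro h7
          refine ⟨h7, ?_, ?_⟩
          · rintro rfl; exact absurd h4 ha.2
          · rintro rfl; exact absurd h4 hb.2
      rw [h6]
      have h7 : 2 ≤ C.card := by
        have : ({u, v} : Finset V) ⊆ C := by
          intro x hx
          simp only [mem_insert, mem_singleton] at hx
          rcases hx with rfl | rfl
          · exact h4
          · exact h2
        have h8 := card_le_card this
        rwa [card_pair huv] at h8
      obtain ⟨m, hm⟩ : ∃ m, C.card = m + 2 := ⟨C.card - 2, by omega⟩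
      rw [hm]
      have : m + 2 - 1 - 1 = m := by omega
      rw [this]
      have : m + 2 - 1 = m + 1 := by omega
      rw [this]
      ring

/-- number of edges after deletion -/
theorem e2_del {H : SimpleGraph V} {S : Finset V} {u v : V} (hu : u ∈ S) (hv : v ∈ S)
    (h : H.Adj u v) : e2 H S = e2 (del H u v) S + 2 := by
  have huv : u ≠ v := h.ne
  rw [e2_erase (H := H) hv, e2_erase (H := del H u v) hv]
  have h1 : e2 (del H u v) (S \ {v}) = e2 H (S \ {v}) := by
    apply e2_congr
    intro a ha b hb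
    rw [mem_sdiff, mem_singleton] at ha hb
    constructor
    · exact fun h2 => h2.1
    · exact fun h2 => ⟨h2, fun h3 => hb.2 h3.2, fun h3 => ha.2 h3.1⟩
  have h2 : nb (del H u v) S v = (nb H S v).erase u := by
    ext x
    rw [mem_erase, mem_nb, mem_nb]
    constructor
    · rintro ⟨h3, h4⟩
      refine ⟨?_, h3, h4.1⟩
      rintro rfl
      exact h4.2.2 ⟨rfl, rfl⟩
    · rintro ⟨h3, h4, h5⟩
      exact ⟨h4, h5, fun h6 => huv h6.1.symm, fun h6 => h3 h6.2⟩
  have h3 : u ∈ nb H S v := mem_nb.2 ⟨hu, h.symm⟩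
  have h4 := card_erase_add_one h3
  rw [h1, h2]
  omega

/-- number of edges after contraction -/
theorem e2_ctr {H : SimpleGraph V} {S : Finset V} {u v : V} (hu : u ∈ S) (hv : v ∈ S)
    (h : H.Adj u v) :
    e2 H S + 2 = e2 (ctr H u v) (S \ {v}) + 2 * (nb H S u ∪ nb H S v).card := by
  have huv : u ≠ v := h.ne
  have hu' : u ∈ S \ {v} := mem_sdiff.2 ⟨hu, by simpa using huv⟩
  rw [e2_erase (H := H) hv, e2_erase (H := H) hu', e2_erase (H := ctr H u v) hu']
  have h1 : e2 (ctr H u v) ((S \ {v}) \ {u}) = e2 H ((S \ {v}) \ {u}) := by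
    apply e2_congr
    intro a ha b hb
    rw [mem_sdiff, mem_singleton] at ha hb
    constructor
    · exact fun h2 => h2.1
    · exact fun h2 => ⟨h2, fun h3 => absurd h3 ha.2, fun h3 => absurd h3 hb.2⟩
  have h2 : nb (ctr H u v) (S \ {v}) u = nb H S u ∩ nb H S v := by
    ext x
    rw [mem_inter, mem_nb, mem_nb, mem_nb, mem_sdiff, mem_singleton]
    constructor
    · rintro ⟨⟨h3, h4⟩, h5⟩
      exact ⟨⟨h3, h5.1⟩, h3, h5.2.1 rfl⟩
    · rintro ⟨⟨h3, h4⟩, -, h5⟩
      refine ⟨⟨h3, ?_⟩, h4, fun _ => h5, ?_⟩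
      · rintro rfl; exact H.loopless.irrefl _ h5
      · rintro rfl; exact absurd h4 (H.loopless.irrefl _)
  have h3 : v ∈ nb H S u := mem_nb.2 ⟨hv, h⟩
  have h4 := card_erase_add_one h3
  have h5 : nb H (S \ {v}) u = (nb H S u).erase v := by
    rw [nb_sdiff, sdiff_singleton_eq_erase]
  have h6 := card_union_add_card_inter (nb H S u) (nb H S v)
  rw [h1, h2, h5]
  omega

/-- move the edge `v w` to `z w` -/
def mv (H : SimpleGraph V) (v w z : V) (hz : z ≠ w) : SimpleGraph V where
  Adj a b := (del H v w).Adj a b ∨ (a = z ∧ b = w) ∨ (a = w ∧ b = z)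
  symm := ⟨by
    rintro a b (h | ⟨rfl, rfl⟩ | ⟨rfl, rfl⟩)
    · exact Or.inl h.symm
    · exact Or.inr (Or.inr ⟨rfl, rfl⟩)
    · exact Or.inr (Or.inl ⟨rfl, rfl⟩)⟩
  loopless := ⟨by
    rintro a (h | ⟨rfl, h⟩ | ⟨rfl, h⟩)
    · exact (del H v w).loopless.irrefl a h
    · exact hz h
    · exact hz h.symm⟩

theorem mv_adj_off {H : SimpleGraph V} {v w z : V} (hz : z ≠ w) {a b : V} (ha : a ≠ w)
    (hb : b ≠ w) : (mv H v w z hz).Adj a b ↔ H.Adj a b := by
  constructor
  · rintro (h | ⟨-, h⟩ | ⟨h, -⟩)
    · exact h.1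
    · exact absurd h hb
    · exact absurd h ha
  · intro h
    exact Or.inl ⟨h, fun h1 => hb h1.2, fun h1 => ha h1.1⟩

theorem P_shift {H : SimpleGraph V} {S : Finset V} {v w z : V} (hv : v ∈ S) (hw : w ∈ S)
    (hz : z ∈ S) (h : H.Adj v w) (hiso : nb H S z = ∅) (hzw : z ≠ w) :
    Le (P H S) (P (mv H v w z hzw) S) := by
  classical
  have hvw : v ≠ w := h.ne
  have hzv : z ≠ v := by
    rintro rfl
    have : w ∈ nb H S z := mem_nb.2 ⟨hw, h⟩
    rw [hiso] at this
    simp at this
  have hniso : ∀ x ∈ S, ¬ H.Adj z x := by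
    intro x hx hzx
    have : x ∈ nb H S z := mem_nb.2 ⟨hx, hzx⟩
    rw [hiso] at this
    simp at this
  rw [P_exp H hw, ← sum_filter_add_sum_filter_not (cl H w S) (fun C => v ∉ C)]
  rw [P_exp (mv H v w z hzw) hw]
  -- the cliques in the new graph
  have hsub : insert {w, z} ((cl H w S).filter (fun C => v ∉ C)) ⊆ cl (mv H v w z hzw) w S := by
    intro C hC
    rw [mem_insert] at hC
    rcases hC with rfl | hC
    · rw [mem_cl]
      refine ⟨?_, by simp, ?_⟩
      · intro x hx
        simp only [mem_insert, mem_singleton] at hx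
        rcases hx with rfl | rfl <;> assumption
      · rw [coe_insert, coe_singleton, SimpleGraph.isClique_insert]
        refine ⟨by simp, fun x hx _ => ?_⟩
        rw [Set.mem_singleton_iff] at hx
        subst hx
        exact Or.inr (Or.inr ⟨rfl, rfl⟩)
    · rw [mem_filter, mem_cl] at hC
      obtain ⟨⟨h1, h2, h3⟩, h4⟩ := hC
      rw [mem_cl]
      refine ⟨h1, h2, fun x hx y hy hxy => Or.inl ⟨h3 hx hy hxy, ?_, ?_⟩⟩
      · rintro ⟨rfl, -⟩; exact h4 hx
      · rintro ⟨-, rfl⟩; exact h4 hy
  have hnot : ({w, z} : Finset V) ∉ (cl H w S).filter (fun C => v ∉ C) := by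
    rw [mem_filter, mem_cl]
    rintro ⟨⟨-, -, h3⟩, -⟩
    have : H.Adj z w := h3 (by simp) (by simp) hzw
    exact hniso w hw this
  refine Le.trans ?_ (Le.sum_subset hsub _)
  rw [sum_insert hnot, add_comm]
  have hP : ∀ C : Finset V, w ∈ C → P (mv H v w z hzw) (S \ C) = P H (S \ C) := by
    intro C hC
    apply P_congr'
    intro a ha b hb
    rw [mem_sdiff] at ha hb
    apply mv_adj_off
    · rintro rfl; exact ha.2 hC
    · rintro rfl; exact hb.2 hC
  refine Le.add ?_ (Le.of_eq ?_)
  · -- cliques through `v w`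
    rw [hP _ (by simp), card_pair (Ne.symm hzw)]
    have h1 : P H (S \ {w, z}) = P H (S \ {w}) := by
      have hz' : z ∈ S \ {w} := mem_sdiff.2 ⟨hz, by simpa using hzw⟩
      have h2 : nb H (S \ {w}) z = ∅ := by rw [nb_sdiff, hiso]; simp
      rw [P_deg0 hz' h2, sdiff_sdiff_left]
      rfl
    rw [h1]
    have hv' : v ∈ S \ {w} := mem_sdiff.2 ⟨hv, by simpa using hvw⟩
    rw [P_exp H hv', mul_sum]
    have h2 : ((cl H w S).filter (fun C => ¬ v ∉ C)).image (fun C => C.erase w) ⊆
        cl H v (S \ {w}) := by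
      intro D hD
      rw [mem_image] at hD
      obtain ⟨C, hC, rfl⟩ := hD
      rw [mem_filter, mem_cl, not_not] at hC
      obtain ⟨⟨h1, h2, h3⟩, h4⟩ := hC
      rw [mem_cl]
      refine ⟨fun x hx => ?_, mem_erase.2 ⟨hvw, h4⟩, ?_⟩
      · rw [mem_erase] at hx
        exact mem_sdiff.2 ⟨h1 hx.2, by simpa using hx.1⟩
      · exact h3.subset (by rw [coe_erase]; exact Set.diff_subset)
    refine Le.trans (Le.of_eq ?_) (Le.sum_subset h2 _)
    rw [sum_image]
    · refine sum_congr rfl (fun C hC => ?_)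
      rw [mem_filter, mem_cl, not_not] at hC
      obtain ⟨⟨h1, h2, h3⟩, h4⟩ := hC
      have h5 : (S \ {w}) \ C.erase w = S \ C := by
        ext x
        simp only [mem_sdiff, mem_singleton, mem_erase]
        constructor
        · rintro ⟨⟨h6, h7⟩, h8⟩
          exact ⟨h6, fun h9 => h8 ⟨h7, h9⟩⟩
        · rintro ⟨h6, h7⟩
          refine ⟨⟨h6, ?_⟩, fun h8 => h7 h8.2⟩
          rintro rfl
          exact h7 h2
      rw [h5, card_erase_of_mem h2]
      have h7 : 2 ≤ C.card := by
        have : ({v, w} : Finset V) ⊆ C := by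
          intro x hx
          simp only [mem_insert, mem_singleton] at hx
          rcases hx with rfl | rfl
          · exact h4
          · exact h2
        have h8 := card_le_card this
        rwa [card_pair hvw] at h8
      obtain ⟨m, hm⟩ : ∃ m, C.card = m + 2 := ⟨C.card - 2, by omega⟩
      rw [hm]
      have : m + 2 - 1 - 1 = m := by omega
      rw [this]
      have : m + 2 - 1 = m + 1 := by omega
      rw [this]
      ring
    · intro C hC D hD he
      rw [mem_coe, mem_filter, mem_cl] at hC hD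
      simp only at he
      rw [← insert_erase hC.1.2.1, ← insert_erase hD.1.2.1, he]
  · refine sum_congr rfl (fun C hC => ?_)
    rw [mem_filter, mem_cl] at hC
    rw [hP C hC.1.2.1]

theorem e2_shift {H : SimpleGraph V} {S : Finset V} {v w z : V} (hv : v ∈ S) (hw : w ∈ S)
    (hz : z ∈ S) (h : H.Adj v w) (hiso : nb H S z = ∅) (hzw : z ≠ w) :
    e2 (mv H v w z hzw) S = e2 H S := by
  have hvw : v ≠ w := h.ne
  rw [e2_erase (H := H) hw, e2_erase (H := mv H v w z hzw) hw]
  have h1 : e2 (mv H v w z hzw) (S \ {w}) = e2 H (S \ {w}) := by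
    apply e2_congr
    intro a ha b hb
    rw [mem_sdiff, mem_singleton] at ha hb
    exact mv_adj_off hzw ha.2 hb.2
  have hzw' : z ∉ nb H S w := by
    intro hzz
    have : w ∈ nb H S z := mem_nb.2 ⟨hw, (mem_nb.1 hzz).2.symm⟩
    rw [hiso] at this
    simp at this
  have h2 : nb (mv H v w z hzw) S w = insert z ((nb H S w).erase v) := by
    ext x
    rw [mem_insert, mem_erase, mem_nb, mem_nb]
    constructor
    · rintro ⟨h3, (h4 | ⟨h4, -⟩ | ⟨-, h4⟩)⟩
      · right
        refine ⟨?_, h3, h4.1⟩
        rintro rfl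
        exact h4.2.2 ⟨rfl, rfl⟩
      · exact absurd h4.symm hzw
      · left; exact h4
    · rintro (rfl | ⟨h3, h4, h5⟩)
      · exact ⟨hz, Or.inr (Or.inr ⟨rfl, rfl⟩)⟩
      · exact ⟨h4, Or.inl ⟨h5, fun h6 => hvw h6.1.symm, fun h6 => h3 h6.2⟩⟩
  have h3 : v ∈ nb H S w := mem_nb.2 ⟨hv, h.symm⟩
  have h4 := card_erase_add_one h3
  rw [h1, h2, card_insert_of_notMem (fun h5 => hzw' (mem_of_mem_erase h5))]
  omega

end H5CP
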