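import Pool.Agent.Lib.H5.CP.Main
import Pool.Agent.Lib.H5.CP.Colour
import Mathlib.Combinatorics.SimpleGraph.Extremal.Turan
import Mathlib.Data.Int.CardIntervalMod

/-!
The clique partition polynomial of the complement of a Turan graph with small parts.
-/

namespace H5CP

open Finset Polynomial

section gen

variable {V : Type*} [DecidableEq V]

theorem e2_union' {H : SimpleGraph V} {T S : Finset V} (hTS : T ⊆ S)
    (h : ∀ u ∈ T, ∀ w ∈ S, w ∉ T → ¬ H.Adj u w) : e2 H S = e2 H T + e2 H (S \ T) := by
  unfold e2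
  rw [← sum_sdiff hTS, add_comm]
  congr 1
  · refine sum_congr rfl (fun v hv => ?_)
    congr 1
    ext w
    rw [mem_nb, mem_nb]
    constructor
    · rintro ⟨h1, h2⟩
      refine ⟨?_, h2⟩
      by_contra h3
      exact h v hv w h1 h3 h2
    · rintro ⟨h1, h2⟩
      exact ⟨hTS h1, h2⟩
  · refine sum_congr rfl (fun v hv => ?_)
    congr 1
    ext w
    rw [mem_nb, mem_nb, mem_sdiff]
    rw [mem_sdiff] at hv
    constructor
    · rintro ⟨h1, h2⟩
      refine ⟨⟨h1, fun h3 => ?_⟩, h2⟩
      exact h w h3 v hv.1 hv.2 h2.symm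
    · rintro ⟨h1, h2⟩
      exact ⟨h1.1, h2⟩

theorem e2_clique {H : SimpleGraph V} {T : Finset V} (h : H.IsClique (T : Set V)) :
    e2 H T = T.card * (T.card - 1) := by
  unfold e2
  have h1 : ∀ v ∈ T, (nb H T v).card = T.card - 1 := by
    intro v hv
    have h2 : nb H T v = T.erase v := by
      ext x
      rw [mem_nb, mem_erase]
      constructor
      · rintro ⟨h1, h2⟩
        exact ⟨h2.ne', h1⟩
      · rintro ⟨h1, h2⟩
        exact ⟨h2, h hv h2 (Ne.symm h1)⟩
    rw [h2, card_erase_of_mem hv]
  rw [sum_congr rfl h1, sum_const, smul_eq_mul]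

theorem e2_compl [Fintype V] (G : SimpleGraph V) :
    e2 Gᶜ univ + 2 * G.edgeSet.ncard = Fintype.card V * (Fintype.card V - 1) := by
  classical
  have h1 : G.edgeSet.ncard = G.edgeFinset.card := by
    rw [← SimpleGraph.coe_edgeFinset, Set.ncard_coe_finset]
  rw [h1, ← SimpleGraph.sum_degrees_eq_twice_card_edges, e2, ← sum_add_distrib]
  have h2 : ∀ v ∈ (univ : Finset V), (nb Gᶜ univ v).card + G.degree v = Fintype.card V - 1 := by
    intro v _
    have h3 : nb Gᶜ univ v = Gᶜ.neighborFinset v := by
      ext w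
      rw [mem_nb, SimpleGraph.mem_neighborFinset]
      simp
    rw [h3, SimpleGraph.card_neighborFinset_eq_degree, SimpleGraph.degree_compl]
    have h4 := G.degree_lt_card_verts v
    omega
  rw [sum_congr rfl h2, sum_const, card_univ, smul_eq_mul]

end gen

/-- the vertices with residue less than `j` -/
def low (n r j : ℕ) : Finset (Fin n) := univ.filter (fun v => v.val % r < j)

/-- the vertices with residue `j` -/
def part (n r j : ℕ) : Finset (Fin n) := univ.filter (fun v => v.val % r = j)

theorem mem_low {n r j : ℕ} {v : Fin n} : v ∈ low n r j ↔ v.val % r < j := by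
  simp [low]

theorem mem_part {n r j : ℕ} {v : Fin n} : v ∈ part n r j ↔ v.val % r = j := by
  simp [part]

theorem low_succ_sdiff (n r j : ℕ) : low n r (j + 1) \ part n r j = low n r j := by
  ext v
  rw [mem_sdiff, mem_low, mem_low, mem_part]
  omega

theorem part_sub (n r j : ℕ) : part n r j ⊆ low n r (j + 1) := by
  intro v hv
  rw [mem_part] at hv
  rw [mem_low]
  omega

theorem card_part {n r j : ℕ} (hr : 0 < r) (hj : j < r) :
    (part n r j).card = n / r + if j < n % r then 1 else 0 := by
  have h1 := Nat.count_modEq_card n hr j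
  rw [Nat.mod_eq_of_lt hj] at h1
  rw [← h1, Nat.count_eq_card_filter_range]
  unfold part
  rw [← card_map Fin.valEmbedding]
  congr 1
  ext x
  rw [mem_map, mem_filter, mem_range]
  constructor
  · rintro ⟨v, h2, rfl⟩
    rw [mem_filter] at h2
    refine ⟨v.isLt, ?_⟩
    change v.val % r = j % r
    rw [Nat.mod_eq_of_lt hj]
    exact h2.2
  · rintro ⟨h2, h3⟩
    refine ⟨⟨x, h2⟩, ?_, rfl⟩
    rw [mem_filter]
    refine ⟨mem_univ _, ?_⟩
    change x % r = j % r at h3
    rw [Nat.mod_eq_of_lt hj] at h3
    exact h3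

theorem clique_part (n r j : ℕ) :
    (SimpleGraph.turanGraph n r)ᶜ.IsClique (part n r j : Set (Fin n)) := by
  intro u hu v hv huv
  rw [mem_coe, mem_part] at hu hv
  rw [SimpleGraph.compl_adj, SimpleGraph.turanGraph_adj]
  exact ⟨huv, by rw [hu, hv]; simp⟩

theorem no_adj_part {n r j : ℕ} : ∀ u ∈ part n r j, ∀ w ∈ low n r (j + 1), w ∉ part n r j →
    ¬ (SimpleGraph.turanGraph n r)ᶜ.Adj u w := by
  intro u hu w _ hw h
  rw [mem_part] at hu hw
  rw [SimpleGraph.compl_adj, SimpleGraph.turanGraph_adj] at h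
  apply hw
  have := not_ne_iff.1 h.2
  omega

theorem P_low {n r : ℕ} (h : ∀ j < r, (part n r j).card ≤ 4) : ∀ j ≤ r,
    P (SimpleGraph.turanGraph n r)ᶜ (low n r j) = ∏ i ∈ range j, Kc (part n r i).card := by
  intro j
  induction j with
  | zero =>
    intro _
    have h0 : low n r 0 = ∅ := by
      ext v
      rw [mem_low]
      simp
    rw [h0]
    simp
  | succ j ih =>
    intro hj
    rw [P_union' (part_sub n r j) no_adj_part, low_succ_sdiff, ih (by omega), prod_range_succ,
      P_clique _ (h j (by omega)) _ rfl (clique_part n r j), mul_comm]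

theorem e2_low {n r : ℕ} : ∀ j ≤ r,
    e2 (SimpleGraph.turanGraph n r)ᶜ (low n r j) =
      ∑ i ∈ range j, (part n r i).card * ((part n r i).card - 1) := by
  intro j
  induction j with
  | zero =>
    intro _
    have h0 : low n r 0 = ∅ := by
      ext v
      rw [mem_low]
      simp
    rw [h0]
    simp [e2]
  | succ j ih =>
    intro hj
    rw [e2_union' (part_sub n r j) no_adj_part, low_succ_sdiff, ih (by omega), sum_range_succ,
      e2_clique (clique_part n r j), add_comm]

theorem low_univ {n r : ℕ} (hr : 0 < r) : low n r r = univ := by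
  ext v
  rw [mem_low]
  simp [Nat.mod_lt _ hr]

theorem W_three (m : ℕ) : W (3 * m) = PQ ^ m := by
  induction m with
  | zero => simp [W]
  | succ m ih =>
    rcases m with _ | m
    · simp [W]
    · rw [show 3 * (m + 1 + 1) = (3 * m + 1) + 5 by ring, W_rec,
        show 3 * m + 1 + 2 = 3 * (m + 1) by ring, ih, pow_succ (n := m + 1), mul_comm]

theorem prod_ite_lt {M : Type*} [CommMonoid M] (r b : ℕ) (hb : b ≤ r) (f : ℕ → M) (x y : M)
    (hf : ∀ i < r, f i = if i < b then x else y) : ∏ i ∈ range r, f i = x ^ b * y ^ (r - b) := by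
  obtain ⟨c, rfl⟩ := Nat.exists_eq_add_of_le hb
  rw [prod_range_add, Nat.add_sub_cancel_left]
  congr 1
  · rw [prod_congr rfl (g := fun _ => x), prod_const, card_range]
    intro i hi
    rw [mem_range] at hi
    rw [hf i (by omega), if_pos hi]
  · rw [prod_congr rfl (g := fun _ => y), prod_const, card_range]
    intro i hi
    rw [mem_range] at hi
    rw [hf _ (by omega), if_neg (by omega)]

theorem sum_ite_lt (r b : ℕ) (hb : b ≤ r) (f : ℕ → ℕ) (x y : ℕ)
    (hf : ∀ i < r, f i = if i < b then x else y) :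
    ∑ i ∈ range r, f i = x * b + y * (r - b) := by
  obtain ⟨c, rfl⟩ := Nat.exists_eq_add_of_le hb
  rw [sum_range_add, Nat.add_sub_cancel_left]
  congr 1
  · rw [sum_congr rfl (g := fun _ => x), sum_const, card_range, smul_eq_mul, mul_comm]
    intro i hi
    rw [mem_range] at hi
    rw [hf i (by omega), if_pos hi]
  · rw [sum_congr rfl (g := fun _ => y), sum_const, card_range, smul_eq_mul, mul_comm]
    intro i hi
    rw [mem_range] at hi
    rw [hf _ (by omega), if_neg (by omega)]

theorem turan_data {n r : ℕ} (h : n ≤ 3 * r) : ∃ a k, n = k + a ∧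
    e2 (SimpleGraph.turanGraph n r)ᶜ univ = 2 * k ∧
    P (SimpleGraph.turanGraph n r)ᶜ univ = B a k := by
  rcases Nat.eq_zero_or_pos r with rfl | hr
  · obtain rfl : n = 0 := by omega
    refine ⟨0, 0, rfl, ?_, ?_⟩
    · simp [e2]
    · have h0 : (univ : Finset (Fin 0)) = ∅ := by simp
      rw [h0, P_empty, B_zero]
      simp [W]
  · have hs : n / r ≤ 3 := by
      rw [Nat.div_le_iff_le_mul_add_pred hr]
      have : 3 * r = r * 3 := by ring
      omega
    have hb : n % r ≤ r := (Nat.mod_lt _ hr).le
    have hcard : ∀ j < r, (part n r j).card = n / r + if j < n % r then 1 else 0 :=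
      fun j hj => card_part hr hj
    have hdiv : r * (n / r) + n % r = n := Nat.div_add_mod n r
    have hP := P_low (n := n) (r := r) (by
      intro j hj
      rw [hcard j hj]
      split_ifs <;> omega) r le_rfl
    have hE := e2_low (n := n) (r := r) r le_rfl
    rw [low_univ hr] at hP hE
    rw [prod_ite_lt r (n % r) hb _ (Kc (n / r + 1)) (Kc (n / r)) (by
      intro i hi
      rw [hcard i hi]
      split_ifs <;> rfl)] at hP
    rw [sum_ite_lt r (n % r) hb _ ((n / r + 1) * (n / r)) ((n / r) * (n / r - 1)) (by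
      intro i hi
      rw [hcard i hi]
      split_ifs <;> rfl)] at hE
    generalize hsd : n / r = s at *
    generalize hbd : n % r = b at *
    have hbr : b < r := by rw [← hbd]; exact Nat.mod_lt _ hr
    interval_cases s
    · refine ⟨n, 0, by omega, ?_, ?_⟩
      · rw [hE]; ring
      · rw [hP, B_le (Nat.zero_le _)]
        simp [Kc]
    · refine ⟨r, b, by omega, ?_, ?_⟩
      · rw [hE]; ring
      · rw [hP, B_le hbr.le]
        simp [Kc]
    · refine ⟨r - b, (r - b) + 3 * b, by omega, ?_, ?_⟩
      · rw [hE]; omega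
      · rw [hP, B_add, W_three]
        simp only [Kc]
        ring
    · obtain rfl : b = 0 := by omega
      refine ⟨0, 3 * r, by omega, ?_, ?_⟩
      · rw [hE]; omega
      · rw [hP, B_zero, W_three]
        simp [Kc]

/-- domination of the polynomials -/
theorem turan_le {n r : ℕ} (h : n ≤ 3 * r) (G : SimpleGraph (Fin n))
    (hG : G.edgeSet.ncard = (SimpleGraph.turanGraph n r).edgeSet.ncard) :
    Le (P Gᶜ univ) (P (SimpleGraph.turanGraph n r)ᶜ univ) := by
  obtain ⟨a, k, hn, he, hP⟩ := turan_data h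
  have h1 := e2_compl G
  have h2 := e2_compl (SimpleGraph.turanGraph n r)
  rw [hG] at h1
  have h3 : e2 Gᶜ univ = 2 * k := by omega
  rw [hP]
  exact claim_all n Gᶜ univ (by simp) a k hn h3

/-- Turan graphs with parts of size at most three have the greatest number of proper
colourings. -/
theorem turan_max {n r : ℕ} (h : n ≤ 3 * r) (G : SimpleGraph (Fin n))
    (hG : G.edgeSet.ncard = (SimpleGraph.turanGraph n r).edgeSet.ncard) (q : ℕ) :
    Nat.card (G.Coloring (Fin q)) ≤ Nat.card ((SimpleGraph.turanGraph n r).Coloring (Fin q)) := by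
  rw [card_coloring, card_coloring]
  exact F_mono (turan_le h G hG)

theorem F_zero_of_le {q r n : ℕ} (hrq : r ≤ q) {p : ℕ[X]} (h : F q n p = 0) : F r n p = 0 := by
  unfold F at h ⊢
  rw [sum_eq_zero_iff] at h ⊢
  intro i hi
  have h1 := h i hi
  rw [Nat.mul_eq_zero] at h1 ⊢
  rcases h1 with h1 | h1
  · exact Or.inl h1
  · right
    rw [Nat.descFactorial_eq_zero_iff_lt] at h1 ⊢
    omega

theorem turan_unique {n r : ℕ} (h : n ≤ 3 * r) (G : SimpleGraph (Fin n))
    (hG : G.edgeSet.ncard = (SimpleGraph.turanGraph n r).edgeSet.ncard) {q : ℕ} (hq : r ≤ q)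
    (he : Nat.card (G.Coloring (Fin q)) =
      Nat.card ((SimpleGraph.turanGraph n r).Coloring (Fin q))) :
    Nonempty (G ≃g SimpleGraph.turanGraph n r) := by
  classical
  rcases Nat.eq_zero_or_pos r with rfl | hr
  · obtain rfl : n = 0 := by omega
    exact ⟨⟨Equiv.refl _, fun {a} => a.elim0⟩⟩
  · obtain ⟨R, hR⟩ := turan_le h G hG
    rw [card_coloring, card_coloring, hR, F_add] at he
    have h1 : F (Fintype.card (Fin q)) (Fintype.card (Fin n)) R = 0 := by omega
    rw [Fintype.card_fin] at h1
    have h2 := F_zero_of_le hq h1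
    have h3 : Nat.card (G.Coloring (Fin r)) =
        Nat.card ((SimpleGraph.turanGraph n r).Coloring (Fin r)) := by
      rw [card_coloring, card_coloring, hR, F_add, Fintype.card_fin, h2, add_zero]
    have h4 : Nonempty ((SimpleGraph.turanGraph n r).Coloring (Fin r)) :=
      ⟨SimpleGraph.Coloring.mk (fun v => ⟨v.val % r, Nat.mod_lt _ hr⟩) (by
        intro v w hvw heq
        rw [SimpleGraph.turanGraph_adj] at hvw
        exact hvw (by simpa using heq))⟩
    have h5 : 0 < Nat.card ((SimpleGraph.turanGraph n r).Coloring (Fin r)) := Nat.card_pos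
    rw [← h3] at h5
    have h6 : Nonempty (G.Coloring (Fin r)) := (Nat.card_pos_iff.1 h5).1
    have h7 : G.CliqueFree (r + 1) := SimpleGraph.Colorable.cliqueFree h6 (Nat.lt_succ_self r)
    have h8 := SimpleGraph.isTuranMaximal_turanGraph (n := n) hr
    have h9 : G.edgeFinset.card = (SimpleGraph.turanGraph n r).edgeFinset.card := by
      rw [← Set.ncard_coe_finset, ← Set.ncard_coe_finset, SimpleGraph.coe_edgeFinset,
        SimpleGraph.coe_edgeFinset]
      exact hG
    have h10 : G.IsTuranMaximal r := by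
      refine ⟨h7, ?_⟩
      intro K _ hK
      rw [h9]
      exact h8.2 hK
    have h11 := h10.nonempty_iso_turanGraph
    rw [Fintype.card_fin] at h11
    exact h11

end H5CP
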